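import Pool.Agent.L0h16.NC.Torus

/-!
# The Hodge classes are stable under the operations
-/

set_option autoImplicit false
set_option linter.unusedSectionVars false

namespace Pool.Agent.L0h16.NC

open Matrix Pool.Agent.N996.BP
open Sys (pr2)

variable {ι : Type} [Fintype ι] [DecidableEq ι] {V : KTop ι}
variable {κ κ' : Type} [Fintype κ] [DecidableEq κ] [Fintype κ'] [DecidableEq κ']

lemma TH_rei (e : κ ≃ κ') {ε : κ → Bool} {η : κ' → Bool} (h : ∀ x, η (e x) = ε x)
    {a : (κ → ι) → ℚ} (ha : V.IsTH ε a) : V.IsTH η (rei e a) := by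
  intro t ht
  have h1 : ca (rei e a) = rei e (ca a) := rfl
  rw [h1, kw_rei]
  have h2 : (fun k => V.L (η (e k)) t) = fun k => V.L (ε k) t := by
    funext k
    rw [h]
  rw [h2, ha t ht]

lemma TH_tens {ε : κ → Bool} {η : κ' → Bool} {a : (κ → ι) → ℚ} {b : (κ' → ι) → ℚ}
    (ha : V.IsTH ε a) (hb : V.IsTH η b) : V.IsTH (Sum.elim ε η) (tens a b) := by
  intro t ht
  have h1 : ca (tens a b) = tens (ca a) (ca b) := by
    funext i
    simp [ca, tens]
  have h2 : (fun m => V.L (Sum.elim ε η m) t) =
      Sum.elim (fun m => V.L (ε m) t) fun m => V.L (η m) t := by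
    funext m
    rcases m with m | m <;> rfl
  rw [h1, h2, kw_tens, ha t ht, hb t ht]

lemma L_pair {t : ℂ} (ht : t ≠ 0) (x y : ι) :
    ∑ z, V.L true t z x * V.L false t z y = if x = y then 1 else 0 := by
  have h1 := l_inv' (V := V) ht
  have h2 := congrFun (congrFun h1 x) y
  rw [Matrix.mul_apply, Matrix.one_apply] at h2
  exact h2

lemma sum_pair {M : Type*} [AddCommMonoid M] (f : (Unit ⊕ Unit → ι) → M) :
    ∑ j, f j = ∑ x, ∑ y, f (pr2 x y) := by
  rw [sum_sumElim, ← Equiv.sum_comp (Equiv.funUnique Unit ι).symm]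
  refine Finset.sum_congr rfl fun x _ => ?_
  rw [← Equiv.sum_comp (Equiv.funUnique Unit ι).symm]
  refine Finset.sum_congr rfl fun y _ => ?_
  congr 1

lemma TH_ev {ε : κ → Bool} {a : (κ ⊕ (Unit ⊕ Unit) → ι) → ℚ}
    (ha : V.IsTH (Sum.elim ε (pr2 true false)) a) :
    V.IsTH ε (fun i : κ → ι => ∑ x, a (Sum.elim i (pr2 x x))) := by
  intro t ht
  funext i
  have h1 : ∀ z, ca a (Sum.elim i (pr2 z z)) = ∑ j : κ → ι, ∑ x, ∑ y,
      (kw (fun m => V.L (ε m) t) i j * (V.L true t z x * V.L false t z y)) *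
        ca a (Sum.elim j (pr2 x y)) := by
    intro z
    conv_lhs => rw [← ha t ht]
    rw [Matrix.mulVec, dotProduct, sum_sumElim]
    refine Finset.sum_congr rfl fun j _ => ?_
    rw [sum_pair]
    refine Finset.sum_congr rfl fun x _ => Finset.sum_congr rfl fun y _ => ?_
    congr 1
    rw [kw_apply, Fintype.prod_sum_type, Fintype.prod_sum_type]
    simp only [Sum.elim_inl, Sum.elim_inr, Finset.univ_unique, Finset.prod_singleton]
    rfl
  have h2 : ca (fun i : κ → ι => ∑ x, a (Sum.elim i (pr2 x x))) i =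
      ∑ z, ca a (Sum.elim i (pr2 z z)) := by
    simp [ca]
  rw [h2]
  simp only [h1]
  rw [Finset.sum_comm]
  rw [Matrix.mulVec, dotProduct]
  refine Finset.sum_congr rfl fun j _ => ?_
  have h3 : ca (fun i : κ → ι => ∑ x, a (Sum.elim i (pr2 x x))) j =
      ∑ z, ca a (Sum.elim j (pr2 z z)) := by
    simp [ca]
  rw [h3, Finset.mul_sum, Finset.sum_comm]
  refine Finset.sum_congr rfl fun x _ => ?_
  rw [Finset.sum_comm]
  have h4 : ∀ y, ∑ z, (kw (fun m => V.L (ε m) t) i j * (V.L true t z x * V.L false t z y)) *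
        ca a (Sum.elim j (pr2 x y)) = kw (fun m => V.L (ε m) t) i j * (if x = y then 1 else 0) *
        ca a (Sum.elim j (pr2 x y)) := by
    intro y
    rw [← L_pair (V := V) ht x y, Finset.mul_sum, Finset.sum_mul]
  simp only [h4]
  rw [Finset.sum_eq_single x]
  · rw [if_pos rfl, mul_one]
  · intro y _ hy
    rw [if_neg (Ne.symm hy), mul_zero, zero_mul]
  · intro h; exact absurd (Finset.mem_univ _) h

/-- the projectors respect the parity -/
lemma parity_col (k : ℤ) (i j : ι) (h : V.π k i j ≠ 0) : V.odd j = true ↔ Odd k := by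
  have h1 := V.parity k i j h
  have h2 : V.odd i = V.odd j := by
    by_contra hne
    have h3 : (1 : Matrix ι ι ℂ) = ∑ l ∈ Finset.Icc (-V.w : ℤ) V.w, V.π l := V.total.symm
    -- the components of `e_j` of the parity of `j` add up to `e_j`
    have h4 : ∀ i', ∑ l ∈ (Finset.Icc (-V.w : ℤ) V.w).filter (fun l => Odd l ↔ ¬ Odd k),
        V.π l i' j = if i' = j then 1 else 0 := by
      intro i'
      have h5 := congrFun (congrFun h3 i') j
      rw [Matrix.one_apply, Matrix.sum_apply] at h5
      by_cases hi : V.odd i' = V.odd j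
      · rw [h5]
        refine Finset.sum_subset (Finset.filter_subset _ _) fun l hl hl2 => ?_
        rw [Finset.mem_filter, not_and] at hl2
        have h6 := hl2 hl
        by_contra h7
        have h8 := V.parity l i' j h7
        apply h6
        have h9 : V.odd j ≠ V.odd i := fun h => hne h.symm
        cases hj : V.odd j <;> cases hi2 : V.odd i <;> simp_all
      · have hij : i' ≠ j := fun h => hi (by rw [h])
        rw [if_neg hij]
        refine Finset.sum_eq_zero fun l hl => ?_
        rw [Finset.mem_filter] at hl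
        by_contra h7
        have h8 := V.parity l i' j h7
        have h9 := hl.2
        cases hj : V.odd j <;> cases hi2 : V.odd i <;> cases hi3 : V.odd i' <;> simp_all
    have h5 : V.π k i j = 0 := by
      have h6 : (V.π k * ∑ l ∈ (Finset.Icc (-V.w : ℤ) V.w).filter (fun l => Odd l ↔ ¬ Odd k),
          V.π l) i j = V.π k i j := by
        rw [Matrix.mul_apply, Finset.sum_eq_single j]
        · rw [Matrix.sum_apply, h4, if_pos rfl, mul_one]
        · intro i' _ hi'
          rw [Matrix.sum_apply, h4, if_neg hi', mul_zero]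
        · intro h; exact absurd (Finset.mem_univ _) h
      rw [← h6, Finset.mul_sum, Matrix.sum_apply]
      refine Finset.sum_eq_zero fun l hl => ?_
      rw [Finset.mem_filter] at hl
      have hkl : k ≠ l := by
        rintro rfl
        have := hl.2
        tauto
      rw [pi_mul_of_ne hkl, Matrix.zero_apply]
    exact h h5
  rw [← h2]
  exact h1

lemma lc_parity {t : ℂ} {i j : ι} (h : V.lc t i j ≠ 0) : V.odd i = V.odd j := by
  rw [l_def, Matrix.sum_apply] at h
  obtain ⟨k, -, hk⟩ := Finset.exists_ne_zero_of_sum_ne_zero h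
  have h1 : V.π k i j ≠ 0 := by
    intro h0
    apply hk
    rw [Matrix.smul_apply, h0, smul_zero]
  have h2 := V.parity k i j h1
  have h3 := parity_col k i j h1
  have h4 : V.odd i = true ↔ V.odd j = true := h2.trans h3.symm
  cases hi : V.odd i <;> cases hj : V.odd j <;> simp_all

lemma L_parity {b : Bool} {t : ℂ} {i j : ι} (h : V.L b t i j ≠ 0) : V.odd i = V.odd j := by
  cases b with
  | false => exact lc_parity h
  | true => exact (lc_parity (t := t⁻¹) (i := j) (j := i) h).symm

lemma TH_swap {n : ℕ} {ε : Fin (n + 1) → Bool} {a : (Fin (n + 1) → ι) → ℚ} (j : Fin n)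
    (ha : V.IsTH ε a) : V.IsTH (ε ∘ Equiv.swap j.castSucc j.succ) (V.swapAt j a) := by
  have h1 : V.IsTH (ε ∘ Equiv.swap j.castSucc j.succ) (rei (Equiv.swap j.castSucc j.succ) a) :=
    TH_rei (Equiv.swap j.castSucc j.succ) (by intro x; simp) ha
  intro t ht
  have h2 := h1 t ht
  funext i
  have h3 := congrFun h2 i
  have h4 : ∀ i, ca (V.swapAt j a) i = ((sg2 V (i j.castSucc) (i j.succ) : ℚ) : ℂ) *
      ca (rei (Equiv.swap j.castSucc j.succ) a) i := by
    intro i
    change ((V.swapAt j a i : ℚ) : ℂ) = _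
    rw [swapAt_eq]
    push_cast
    rfl
  rw [h4, ← h3, Matrix.mulVec, Matrix.mulVec, dotProduct, dotProduct, Finset.mul_sum]
  refine Finset.sum_congr rfl fun i' _ => ?_
  rw [h4]
  by_cases h0 : kw (fun m => V.L ((ε ∘ Equiv.swap j.castSucc j.succ) m) t) i i' = 0
  · rw [h0, zero_mul, zero_mul, mul_zero]
  · have h0' : ∏ m, V.L ((ε ∘ Equiv.swap j.castSucc j.succ) m) t (i m) (i' m) ≠ 0 := h0
    have h8 := Finset.prod_ne_zero_iff.1 h0'
    have h5 := L_parity (h8 j.castSucc (Finset.mem_univ _))
    have h6 := L_parity (h8 j.succ (Finset.mem_univ _))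
    have h7 : sg2 V (i' j.castSucc) (i' j.succ) = sg2 V (i j.castSucc) (i j.succ) := by
      unfold sg2
      rw [h5, h6]
    rw [h7]
    ring

/-- The generated classes are Hodge classes. -/
lemma generated_hodge {N n : ℕ} {ε : Fin n → Bool} {a : (Fin n → ι) → ℚ}
    (h : Generated V N ε a) : V.IsHodge ε a := by
  rw [isHodge_iff]
  induction h with
  | hodge _ h => exact isHodge_iff.1 h
  | @add n ε a b _ _ ha hb =>
    intro t ht
    have h1 : ca (a + b) = ca a + ca b := by ext; simp [ca]
    rw [h1, Matrix.mulVec_add, ha t ht, hb t ht]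
  | @smul n ε a c _ ha =>
    intro t ht
    have h1 : ca (c • a) = (c : ℂ) • ca a := by ext; simp [ca]
    rw [h1, Matrix.mulVec_smul, ha t ht]
  | @box n m ε η a b _ _ ha hb =>
    have h1 := TH_rei (finSumFinEquiv (m := n) (n := m)) (η := Fin.append ε η) (by
      rintro (x | x)
      · simp
      · simp) (TH_tens ha hb)
    exact h1
  | @swap n ε a j _ ha => exact TH_swap j ha
  | @ev n ε a _ ha =>
    have h1 := TH_rei (Sys.ec2 (Equiv.refl (Fin n))).symm (η := Sum.elim ε (pr2 true false)) (by
      intro x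
      obtain ⟨y, rfl⟩ := (Sys.ec2 (Equiv.refl (Fin n))).surjective x
      rw [Equiv.symm_apply_apply]
      have h2 := congrFun (Sys.snoc2_ec (Equiv.refl (Fin n)) ε true false) y
      exact h2.symm) ha
    have h2 := TH_ev h1
    have h3 : (fun i : Fin n → ι => ∑ x, rei (Sys.ec2 (Equiv.refl (Fin n))).symm a
        (Sum.elim i (pr2 x x))) = ev a := by
      funext i
      refine Finset.sum_congr rfl fun x _ => ?_
      rw [rei]
      congr 1
      have h4 := Sys.snoc2_ec (Equiv.refl (Fin n)) i x x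
      funext y
      have h5 := congrFun h4 ((Sys.ec2 (Equiv.refl (Fin n))).symm y)
      simp only [Function.comp_apply, Equiv.apply_symm_apply] at h5
      exact h5.symm
    rw [h3] at h2
    exact h2

end Pool.Agent.L0h16.NC
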