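import Pool.Agent.L0h16.NC.Fam
import Pool.Agent.N996.FP.Wcw

/-!
# The core theorem for the products of copies of a category and of its opposite
-/

set_option autoImplicit false
set_option linter.unusedSectionVars false

namespace Pool.Agent.L0h16.NC

open Matrix TensorProduct Pool.Agent.N996.BP Pool.Agent.N996.FP
open Sys (pr2)

variable {ι : Type} [Fintype ι] [DecidableEq ι] {V : KTop ι} {Q : Matrix ι ι ℚ}
variable {κ κ' : Type} [Fintype κ] [DecidableEq κ] [Fintype κ'] [DecidableEq κ']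
variable {H : HData (Option ι)}

lemma H_l (hw : H.w = V.w) (hπ : H.π = fun k => ext (if k = 0 then 1 else 0) (V.π k)) (t : ℂ) :
    H.l t = ext 1 (V.lc t) := by
  change lt H.w H.π t = _
  rw [hw, hπ, lt, Finset.sum_congr rfl fun k _ => ext_smul (t ^ k) (if k = 0 then (1 : ℂ) else 0)
    (V.π k), ext_sum, l_def]
  congr 1
  rw [Finset.sum_eq_single 0]
  · simp
  · intro k _ hk
    rw [if_neg hk, mul_zero]
  · intro h
    exfalso
    apply h
    rw [Finset.mem_Icc]
    omega

/-! ### The number of the Hodge classes -/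

section card

variable {ι' : Type} [Fintype ι'] [DecidableEq ι'] {H' : HData ι'}

/-- rational vectors which are fixed by the cocharacter -/
def RB (H' : HData ι') : Submodule ℚ (ι' → ℚ) where
  carrier := {u | ∀ t : ℂ, t ≠ 0 → H'.l t *ᵥ (fun i => (u i : ℂ)) = fun i => (u i : ℂ)}
  add_mem' {a b} ha hb t ht := by
    have h : (fun i => (((a + b) i : ℚ) : ℂ)) = (fun i => (a i : ℂ)) + fun i => (b i : ℂ) := by
      funext i; simp
    rw [h, Matrix.mulVec_add, ha t ht, hb t ht]
  zero_mem' t _ := by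
    have h : (fun i => (((0 : ι' → ℚ) i : ℚ) : ℂ)) = 0 := by funext i; simp
    rw [h, Matrix.mulVec_zero]
  smul_mem' c a ha t ht := by
    have h : (fun i => (((c • a) i : ℚ) : ℂ)) = (c : ℂ) • fun i => (a i : ℂ) := by funext i; simp
    rw [h, Matrix.mulVec_smul, ha t ht]

lemma RB_hn {u : ι' → ℚ} (hu : u ∈ RB H') {w : Matrix ι' ι' ℂ} (hw : w ∈ hn H') :
    w *ᵥ (Mm H' *ᵥ fun i => (u i : ℂ)) = 0 := by
  have h0 : ca (un u) = un (fun i => (u i : ℂ)) := rfl
  have h3 : un u ∈ BB H' Unit := by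
    intro t ht
    rw [h0, kp_un, hu t ht]
  have h4 := (mem_hn H').1 hw Unit _ h3
  rw [h0, dk_un] at h4
  have h1 : cj H' w *ᵥ (fun i => (u i : ℂ)) = 0 := un_inj h4
  have h2 := congrArg (fun v => Mm H' *ᵥ v) h1
  beta_reduce at h2
  rw [Matrix.mulVec_zero, cj, ← Matrix.mulVec_mulVec, ← Matrix.mulVec_mulVec,
    Matrix.mulVec_mulVec _ (Mm H') (Mi H'), Mm_Mi, Matrix.one_mulVec] at h2
  exact h2

lemma finrank_RB : Module.finrank ℚ (RB H') ≤ Module.finrank ℂ (Z0 H') := by
  let f : (ℂ ⊗[ℚ] RB H') →ₗ[ℂ] (ι' → ℂ) :=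
    (Matrix.mulVecLin (Mm H')) ∘ₗ (TensorProduct.piScalarRight ℚ ℂ ℂ ι').toLinearMap ∘ₗ
      (RB H').subtype.baseChange ℂ
  have hf1 : ∀ (z : ℂ) (c : RB H'), f (z ⊗ₜ[ℚ] c) =
      z • (Mm H' *ᵥ fun i => ((c : ι' → ℚ) i : ℂ)) := by
    intro z c
    change Mm H' *ᵥ (TensorProduct.piScalarRight ℚ ℂ ℂ ι'
      ((RB H').subtype.baseChange ℂ (z ⊗ₜ[ℚ] c))) = _
    rw [LinearMap.baseChange_tmul, ← Matrix.mulVec_smul]
    congr 1
    rw [TensorProduct.piScalarRight_apply, TensorProduct.piScalarRightHom_tmul]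
    funext i
    simp [Rat.smul_def, mul_comm]
  have hf : ∀ y, f y ∈ Z0 H' := by
    intro y
    induction y using TensorProduct.induction_on with
    | zero => rw [map_zero]; exact Submodule.zero_mem _
    | tmul z c =>
      rw [hf1]
      exact Submodule.smul_mem _ z fun w hw => RB_hn c.2 hw
    | add a b ha hb => rw [map_add]; exact Submodule.add_mem _ ha hb
  have hinj : Function.Injective f := by
    have h1 : Function.Injective ((RB H').subtype.baseChange ℂ) :=
      Module.Flat.lTensor_preserves_injective_linearMap (M := ℂ) _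
        (RB H').injective_subtype
    have h2 : Function.Injective (Matrix.mulVecLin (Mm H')) := by
      intro a b hab
      have h3 := congrArg (fun v => Mi H' *ᵥ v) hab
      simp only [Matrix.mulVecLin_apply, Matrix.mulVec_mulVec, Mi_Mm, Matrix.one_mulVec] at h3
      exact h3
    exact h2.comp ((TensorProduct.piScalarRight ℚ ℂ ℂ ι').injective.comp h1)
  have h3 := LinearMap.finrank_le_finrank_of_injective (f := f.codRestrict (Z0 H') hf)
    (fun a b hab => hinj (congrArg Subtype.val hab))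
  rwa [Module.finrank_baseChange] at h3

end card

lemma hodgeSpace_lc {u : ι → ℚ} (hu : u ∈ hodgeSpace V) (t : ℂ) :
    V.lc t *ᵥ (fun i => (u i : ℂ)) = fun i => (u i : ℂ) := by
  have h1 : ∀ t : ℂ, V.lc t *ᵥ (fun i => (u i : ℂ)) = V.π 0 *ᵥ fun i => (u i : ℂ) := by
    intro t
    rw [l_def, Matrix.sum_mulVec, Finset.sum_eq_single 0]
    · rw [_root_.zpow_zero, one_smul]
    · intro k _ hk
      rw [Matrix.smul_mulVec, hu k hk, smul_zero]
    · intro h
      exfalso
      apply h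
      rw [Finset.mem_Icc]
      omega
  rw [h1, ← h1 1, l_one, Matrix.one_mulVec]

lemma card_le (hl : ∀ t : ℂ, H.l t = ext 1 (V.lc t)) :
    Fintype.card (Option ι) ≤ transRank V + Module.finrank ℂ (Z0 H) := by
  have h1 := finrank_RB (H' := H)
  let g : (ℚ × hodgeSpace V) →ₗ[ℚ] (Option ι → ℚ) :=
    { toFun := fun p i => i.elim p.1 p.2.1
      map_add' := by
        intro p q
        funext i
        rcases i with _ | i <;> simp
      map_smul' := by
        intro c p
        funext i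
        rcases i with _ | i <;> simp }
  have hg : ∀ p, g p ∈ RB H := by
    intro p t _
    rw [hl]
    have h2 := hodgeSpace_lc p.2.2 t
    funext i
    rcases i with _ | i
    · rw [Matrix.mulVec, dotProduct, Fintype.sum_option]
      simp [g]
    · rw [Matrix.mulVec, dotProduct, Fintype.sum_option]
      have h3 := congrFun h2 i
      rw [Matrix.mulVec, dotProduct] at h3
      simpa [g] using h3
  have hinj : Function.Injective g := by
    intro p q h
    refine Prod.ext (congrFun h none) (Subtype.ext ?_)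
    funext i
    exact congrFun h (some i)
  have h3 := LinearMap.finrank_le_finrank_of_injective (f := g.codRestrict (RB H) hg)
    (fun a b hab => hinj (congrArg Subtype.val hab))
  rw [Module.finrank_prod, Module.finrank_self] at h3
  have h4 := Submodule.finrank_quotient_add_finrank (hodgeSpace V)
  rw [Module.finrank_fintype_fun_eq_card] at h4
  rw [transRank, Fintype.card_option]
  omega

/-! ### The centre -/

lemma endo_of_lc {f : Matrix ι ι ℚ} (hf : ∀ t : ℂ, t ≠ 0 → V.lc t * cq f = cq f * V.lc t) :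
    IsEndo V f := by
  have h1 : ∀ k (t : ℂ), V.π k * V.lc t = t ^ k • V.π k := fun k t => proj_mul_L false k t
  have h2 : ∀ k (t : ℂ), V.lc t * V.π k = t ^ k • V.π k := by
    intro k t
    rw [l_def, Finset.sum_mul]
    by_cases hk : k ∈ Finset.Icc (-V.w : ℤ) V.w
    · rw [Finset.sum_eq_single k]
      · rw [Matrix.smul_mul, V.mul, if_pos rfl]
      · intro m _ hm
        rw [Matrix.smul_mul, V.mul, if_neg hm, smul_zero]
      · intro h; exact absurd hk h
    · have h0 : V.π k = 0 := by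
        refine V.bound k ?_
        rw [Finset.mem_Icc, ← abs_le] at hk
        omega
      rw [h0, smul_zero]
      exact Finset.sum_eq_zero fun m _ => Matrix.mul_zero _
  have h3 : ∀ k l, k ≠ l → V.π k * cq f * V.π l = 0 := by
    intro k l hkl
    have h4 := congrArg (fun M => V.π k * M * V.π l) (hf 2 two_ne_zero)
    beta_reduce at h4
    have e1 : V.π k * (V.lc 2 * cq f) * V.π l = (2 : ℂ) ^ k • (V.π k * cq f * V.π l) := by
      rw [← Matrix.mul_assoc, h1, Matrix.smul_mul, Matrix.smul_mul]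
    have e2 : V.π k * (cq f * V.lc 2) * V.π l = (2 : ℂ) ^ l • (V.π k * cq f * V.π l) := by
      rw [← Matrix.mul_assoc, Matrix.mul_assoc, h2, Matrix.mul_smul]
    rw [e1, e2] at h4
    have h5 : ((2 : ℂ) ^ k - 2 ^ l) • (V.π k * cq f * V.π l) = 0 := by
      rw [sub_smul, h4, sub_self]
    rcases smul_eq_zero.1 h5 with h6 | h6
    · exfalso
      apply hkl
      have h7 : ((2 : ℝ) ^ k) = 2 ^ l := by
        have h8 : (((2 : ℝ) ^ k : ℝ) : ℂ) = (((2 : ℝ) ^ l : ℝ) : ℂ) := by
          rw [Complex.ofReal_zpow, Complex.ofReal_zpow]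
          exact sub_eq_zero.1 h6
        exact_mod_cast h8
      exact zpow_right_injective₀ (by norm_num) (by norm_num) h7
    · exact h6
  intro k
  have h4 : V.π k * cq f = V.π k * cq f * V.π k := by
    have h5 : V.π k * cq f = V.π k * cq f *
        ∑ l ∈ Finset.Icc (-V.w : ℤ) V.w, V.π l := by rw [V.total, Matrix.mul_one]
    rw [Finset.mul_sum] at h5
    by_cases hk : k ∈ Finset.Icc (-V.w : ℤ) V.w
    · rw [Finset.sum_eq_single k] at h5
      · exact h5
      · intro l _ hl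
        exact h3 k l (Ne.symm hl)
      · intro h; exact absurd hk h
    · have h0 : V.π k = 0 := V.bound k (by
        rw [Finset.mem_Icc, ← abs_le] at hk
        omega)
      rw [h0, Matrix.zero_mul, Matrix.zero_mul]
  have h6 : cq f * V.π k = V.π k * cq f * V.π k := by
    have h5 : cq f * V.π k = (∑ l ∈ Finset.Icc (-V.w : ℤ) V.w, V.π l) * cq f * V.π k := by
      rw [V.total, Matrix.one_mul]
    rw [Finset.sum_mul, Finset.sum_mul] at h5
    by_cases hk : k ∈ Finset.Icc (-V.w : ℤ) V.w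
    · rw [Finset.sum_eq_single k] at h5
      · exact h5
      · intro l _ hl
        exact h3 l k hl
      · intro h; exact absurd hk h
    · have h0 : V.π k = 0 := V.bound k (by
        rw [Finset.mem_Icc, ← abs_le] at hk
        omega)
      rw [h0, Matrix.mul_zero, Matrix.mul_zero]
  rw [h4, h6]

lemma lc_of_endo {f : Matrix ι ι ℚ} (hf : IsEndo V f) (t : ℂ) :
    V.lc t * cq f = cq f * V.lc t := by
  rw [l_def, Finset.sum_mul, Finset.mul_sum]
  refine Finset.sum_congr rfl fun k _ => ?_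
  rw [Matrix.smul_mul, hf k, Matrix.mul_smul]

lemma ext_inj {c d : ℚ} {M N : Matrix ι ι ℚ} (h : ext c M = ext d N) : M = N := by
  funext i j
  exact congrFun (congrFun h (some i)) (some j)

lemma cQ_ext (c : ℚ) (M : Matrix ι ι ℚ) : cQ (ext c M) = ext (c : ℂ) (cq M) := by
  rw [cQ, ext_map _ Rat.cast_zero]
  rfl

lemma HE_ext (hl : ∀ t : ℂ, H.l t = ext 1 (V.lc t)) (c : ℚ) {M : Matrix ι ι ℚ}
    (h : IsEndo V M) : IsHE H (ext c M) := by
  intro t _
  rw [hl, cQ_ext, ext_mul, ext_mul, lc_of_endo h, one_mul, mul_one]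

/-- The elements of the centre. -/
lemma exists_central (hl : ∀ t : ℂ, H.l t = ext 1 (V.lc t)) {y : Matrix (Option ι) (Option ι) ℚ}
    (hy : IsC H y) : ∃ (c : ℚ) (f : Matrix ι ι ℚ), y = ext c f ∧ IsCentral V f := by
  have h0 : IsEndo V (0 : Matrix ι ι ℚ) := by
    intro k
    have : cq (0 : Matrix ι ι ℚ) = 0 := by funext i j; simp [cq]
    rw [this, Matrix.mul_zero, Matrix.zero_mul]
  have h1 := hy.2 _ (HE_ext hl 1 h0)
  obtain ⟨f, hf⟩ : ∃ f : Matrix ι ι ℚ, f = Matrix.of fun i j => y (some i) (some j) := ⟨_, rfl⟩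
  have h2 : y = ext (y none none) f := by
    funext i j
    rcases i with _ | i <;> rcases j with _ | j
    · rfl
    · have h3 := congrFun (congrFun h1 none) (some j)
      rw [Matrix.mul_apply, Matrix.mul_apply, Fintype.sum_option, Fintype.sum_option] at h3
      simp at h3
      rw [ext_ns]
      exact h3.symm
    · have h3 := congrFun (congrFun h1 (some i)) none
      rw [Matrix.mul_apply, Matrix.mul_apply, Fintype.sum_option, Fintype.sum_option] at h3
      simp at h3
      rw [ext_sn]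
      exact h3
    · rw [ext_ss, hf]
      rfl
  refine ⟨y none none, f, h2, endo_of_lc fun t ht => ?_, fun g hg => ?_⟩
  · have h3 := hy.1 t ht
    rw [h2, hl, cQ_ext, ext_mul, ext_mul] at h3
    funext i j
    exact congrFun (congrFun h3 (some i)) (some j)
  · have h3 := hy.2 _ (HE_ext hl 0 hg)
    rw [h2, ext_mul, ext_mul] at h3
    exact ext_inj h3

lemma centre_adj (hQ : IsPolarisation V Q) (hl : ∀ t : ℂ, H.l t = ext 1 (V.lc t))
    (hQi : H.Qir = ext 1 Q⁻¹) (hR : TotallyRealCentre V Q) (y : Matrix (Option ι) (Option ι) ℚ)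
    (hy : IsC H y) : cQ y * cQ H.Qir = cQ H.Qir * (cQ y)ᵀ := by
  obtain ⟨c, f, rfl, hf⟩ := exists_central hl hy
  have h1 := hR f hf
  have h2 : f * Q⁻¹ = Q⁻¹ * fᵀ := by
    have h3 : Q⁻¹ * Q = 1 := Matrix.nonsing_inv_mul Q (det_ne hQ)
    have h4 : Q * Q⁻¹ = 1 := Matrix.mul_nonsing_inv Q (det_ne hQ)
    calc f * Q⁻¹ = (Q⁻¹ * Q) * f * Q⁻¹ := by rw [h3, Matrix.one_mul]
      _ = Q⁻¹ * (Q * f) * Q⁻¹ := by simp only [Matrix.mul_assoc]
      _ = Q⁻¹ * fᵀ * (Q * Q⁻¹) := by rw [← h1]; simp only [Matrix.mul_assoc]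
      _ = Q⁻¹ * fᵀ := by rw [h4, Matrix.mul_one]
  have h3 : ext c f * ext 1 Q⁻¹ = ext 1 Q⁻¹ * (ext c f)ᵀ := by
    rw [ext_transpose, ext_mul, ext_mul, h2, one_mul, mul_one]
  rw [hQi, ← cQ_mul, h3, cQ_mul]
  rfl

lemma trace_ext (c : ℂ) (M : Matrix ι ι ℂ) : (ext c M).trace = c + M.trace := by
  rw [Matrix.trace, Fintype.sum_option]
  rfl

lemma centre_tr (hl : ∀ t : ℂ, H.l t = ext 1 (V.lc t)) (hw : H.w = V.w)
    (hπ : H.π = fun k => ext (if k = 0 then 1 else 0) (V.π k))
    (hT : TraceFreeCentre V) (y : Matrix (Option ι) (Option ι) ℚ)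
    (hy : IsC H y) : (cQ y * Ng H (RingEquiv.refl ℂ)).trace = 0 := by
  obtain ⟨c, f, rfl, hf⟩ := exists_central hl hy
  have h1 : Ng H (RingEquiv.refl ℂ) = ∑ k ∈ Finset.Icc (-(H.w : ℤ)) H.w,
      (k : ℂ) • H.π k := rfl
  rw [h1, hw, hπ, Finset.mul_sum, Matrix.trace_sum]
  refine (Finset.sum_congr rfl fun k _ => ?_).trans (hT f hf)
  rw [Matrix.mul_smul, Matrix.trace_smul, smul_eq_mul, cQ_ext, ext_mul, trace_ext]
  by_cases hk : k = 0
  · rw [hk, Int.cast_zero, zero_mul, zero_mul]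
  · rw [if_neg hk, mul_zero, zero_add]

/-! ### Plain words -/

variable {Z : ∀ {n : ℕ}, (Fin n → Bool) → Submodule ℚ ((Fin n → ι) → ℚ)}

/-- the form is a Hodge class -/
lemma Q_hodge (hQ : IsPolarisation V Q) : V.IsTH (pr2 true true)
    (fun i : Unit ⊕ Unit → ι => Q (i (Sum.inl ())) (i (Sum.inr ()))) := by
  intro t ht
  funext i
  rw [Matrix.mulVec, dotProduct, sum_sumElim]
  have e : ∀ f : (Unit → ι) → ℂ, ∑ x : Unit → ι, f x = ∑ x : ι, f fun _ => x := by
    intro f
    rw [← Equiv.sum_comp (Equiv.funUnique Unit ι).symm]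
    rfl
  rw [e]
  have h1 : ∀ x : ι, ∑ y : Unit → ι, kw (fun m => V.L (pr2 true true m) t) i
      (Sum.elim (fun _ => x) y) * ca (fun i : Unit ⊕ Unit → ι =>
        Q (i (Sum.inl ())) (i (Sum.inr ()))) (Sum.elim (fun _ => x) y) =
      ∑ y : ι, (V.lc t⁻¹)ᵀ (i (Sum.inl ())) x * (V.lc t⁻¹)ᵀ (i (Sum.inr ())) y * (Q x y : ℂ) := by
    intro x
    rw [e]
    refine Finset.sum_congr rfl fun y _ => ?_
    rw [kw_apply, Fintype.prod_sum_type, Fintype.prod_unique, Fintype.prod_unique]
    rfl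
  simp only [h1]
  have h2 : (V.lc t⁻¹)ᵀ * cq Q * V.lc t⁻¹ = cq Q := by
    rw [lc_tr hQ, inv_inv, Matrix.mul_assoc, l_inv ht, Matrix.mul_one]
  have h3 := congrFun (congrFun h2 (i (Sum.inl ()))) (i (Sum.inr ()))
  rw [Matrix.mul_apply] at h3
  simp only [Matrix.mul_apply, Finset.sum_mul] at h3
  rw [Finset.sum_comm] at h3
  refine Eq.trans ?_ h3
  refine Finset.sum_congr rfl fun x _ => Finset.sum_congr rfl fun y _ => ?_
  rw [Matrix.transpose_apply, Matrix.transpose_apply]
  change _ = V.lc t⁻¹ x (i (Sum.inl ())) * (Q x y : ℂ) * V.lc t⁻¹ y (i (Sum.inr ()))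
  ring

/-- **Products of copies of `C`.** -/
theorem plain {N : ℕ} (hZ : Sys V Z) (hQ : IsPolarisation V Q)
    (hA : Admissible V Q (transRank V) N)
    (hN : ∀ {n : ℕ} (ε : Fin n → Bool), n ≤ N → ∀ a, V.IsHodge ε a → a ∈ Z ε)
    (hle : ∀ {n : ℕ} (ε : Fin n → Bool), ∀ a ∈ Z ε, V.IsHodge ε a)
    {a : (κ → ι) → ℚ} (ha : V.IsTH (fun _ : κ => false) a) :
    a ∈ ZQ Z (fun _ : κ => false) := by
  have hN4 : 4 ≤ N := by
    rcases hA with ⟨-, h⟩ | ⟨-, h⟩ | h <;> rw [h] <;> exact le_max_left _ _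
  obtain ⟨H, hw, hHQ, hQi, -, hπ⟩ := exists_HData hQ
  have hl := H_l hw hπ
  have hQin : QIn Z Q true := ZQ_of_TH hZ hN (by simp; omega) (Q_hodge hQ)
  have hfam := rfam hZ hQin hle hl hHQ
  have hcard := card_le hl
  have hcore : ∀ n, BB H (Fin (n + 1)) ≤ BN Z (Fin (n + 1)) := by
    intro n
    rcases hA with ⟨hR, h⟩ | ⟨hT, h⟩ | h
    · exact tcore_adj (centre_adj hQ hl hQi hR) hN4 (by rw [h]; exact le_max_right _ _) hcard hfam
        (fun n hn => small hZ hN hl n hn) n
    · exact tcore_tr (centre_tr hl hw hπ hT) hN4 (by rw [h]; exact le_max_right _ _) hcard hfam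
        (fun n hn => small hZ hN hl n hn) n
    · exact tcore_gen V.one_le hw.le hN4 (by rw [h]; exact le_max_right _ _) hcard hfam
        (fun n hn => small hZ hN hl n hn) n
  obtain ⟨n, ⟨e⟩⟩ : ∃ n, Nonempty (κ ≃ Fin n) := ⟨_, ⟨Fintype.equivFin κ⟩⟩
  have h1 : rei e a ∈ ZQ Z (fun _ : Fin n => false) := by
    have h2 := TH_rei e (η := fun _ : Fin n => false) (fun x => rfl) ha
    rcases n with _ | n
    · refine ZQ_of_TH hZ hN ?_ h2
      rw [Fintype.card_fin]
      omega
    · exact of_family hl (hcore n) h2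
  have h2 := hZ.reiQ e.symm (η := fun _ : κ => false) (fun x => rfl) h1
  convert h2 using 1
  funext i
  simp only [rei]
  congr 1
  funext m
  simp

/-! ### All words -/

/-- the action of a matrix on the last factor -/
def act1 (R : Matrix ι ι ℚ) (a : (κ ⊕ Unit → ι) → ℚ) : (κ ⊕ Unit → ι) → ℚ :=
  fun i => ∑ x, R (i (Sum.inr ())) x * a (Sum.elim (i ∘ Sum.inl) fun _ => x)

lemma ca_act1 (R : Matrix ι ι ℚ) (a : (κ ⊕ Unit → ι) → ℚ) :
    ca (act1 R a) = kw (Sum.elim (fun _ => 1) fun _ => cq R) *ᵥ ca a := by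
  funext i
  rw [Matrix.mulVec, dotProduct, sum_sumElim]
  have e : ∀ f : (Unit → ι) → ℂ, ∑ x : Unit → ι, f x = ∑ x : ι, f fun _ => x := by
    intro f
    rw [← Equiv.sum_comp (Equiv.funUnique Unit ι).symm]
    rfl
  have hi : i = Sum.elim (i ∘ Sum.inl) (i ∘ Sum.inr) := by simp
  have h1 : ∀ (x : κ → ι) (y : Unit → ι), kw (Sum.elim (fun _ => 1) fun _ => cq R) i
      (Sum.elim x y) = (1 : Matrix (κ → ι) (κ → ι) ℂ) (i ∘ Sum.inl) x *
        cq R (i (Sum.inr ())) (y ()) := by
    intro x y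
    conv_lhs => rw [hi]
    rw [kw_sumElim, kw_one, kw_apply, Fintype.prod_unique]
    rfl
  rw [Finset.sum_eq_single (i ∘ Sum.inl)]
  · rw [e, ca, act1, Rat.cast_sum]
    refine Finset.sum_congr rfl fun x _ => ?_
    rw [h1, Matrix.one_apply_eq, one_mul, Rat.cast_mul]
    rfl
  · intro x _ hx
    refine Finset.sum_eq_zero fun y _ => ?_
    rw [h1, Matrix.one_apply_ne (Ne.symm hx), zero_mul, zero_mul]
  · intro h; exact absurd (Finset.mem_univ _) h

lemma act1_act1 {R S : Matrix ι ι ℚ} (h : R * S = 1) (a : (κ ⊕ Unit → ι) → ℚ) :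
    act1 R (act1 S a) = a := by
  have h1 : ca (act1 R (act1 S a)) = ca a := by
    rw [ca_act1, ca_act1, Matrix.mulVec_mulVec, ← kw_mul]
    have h2 : (fun m : κ ⊕ Unit => (Sum.elim (fun _ => 1) (fun _ => cq R) : _ → Matrix ι ι ℂ) m *
        (Sum.elim (fun _ => 1) (fun _ => cq S) : _ → Matrix ι ι ℂ) m) = fun _ => 1 := by
      funext m
      rcases m with m | m
      · exact Matrix.one_mul _
      · change cq R * cq S = 1
        rw [cq_eq, cq_eq, ← cQ_mul, h, cQ_one]
    rw [h2, kw_one, Matrix.one_mulVec]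
  funext i
  have h2 := congrFun h1 i
  exact Rat.cast_injective h2

lemma TH_act1 (hQ : IsPolarisation V Q) {ε : κ → Bool} {a : (κ ⊕ Unit → ι) → ℚ}
    (ha : V.IsTH (Sum.elim ε fun _ => true) a) :
    V.IsTH (Sum.elim ε fun _ => false) (act1 Q⁻¹ a) := by
  intro t ht
  have hQ1 : Q⁻¹ * Q = 1 := Matrix.nonsing_inv_mul Q (det_ne hQ)
  have hQ2 : Q * Q⁻¹ = 1 := Matrix.mul_nonsing_inv Q (det_ne hQ)
  have hc1 : cq Q⁻¹ * cq Q = 1 := by rw [cq_eq, cq_eq, ← cQ_mul, hQ1, cQ_one]
  have hc2 : cq Q * cq Q⁻¹ = 1 := by rw [cq_eq, cq_eq, ← cQ_mul, hQ2, cQ_one]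
  have h0 : V.lc t * cq Q⁻¹ = cq Q⁻¹ * (V.lc t⁻¹)ᵀ := by
    have h1 := lc_tr hQ t⁻¹
    rw [inv_inv] at h1
    calc V.lc t * cq Q⁻¹ = (cq Q⁻¹ * cq Q) * V.lc t * cq Q⁻¹ := by rw [hc1, Matrix.one_mul]
      _ = cq Q⁻¹ * (cq Q * V.lc t) * cq Q⁻¹ := by simp only [Matrix.mul_assoc]
      _ = cq Q⁻¹ * (V.lc t⁻¹)ᵀ * (cq Q * cq Q⁻¹) := by rw [← h1]; simp only [Matrix.mul_assoc]
      _ = _ := by rw [hc2, Matrix.mul_one]
  rw [ca_act1, Matrix.mulVec_mulVec, ← kw_mul]
  have h2 : (fun m : κ ⊕ Unit => V.L ((Sum.elim ε (fun _ => false) : _ → Bool) m) t *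
      (Sum.elim (fun _ => 1) (fun _ => cq Q⁻¹) : _ → Matrix ι ι ℂ) m) =
      fun m => (Sum.elim (fun _ => 1) (fun _ => cq Q⁻¹) : _ → Matrix ι ι ℂ) m *
        V.L ((Sum.elim ε (fun _ => true) : _ → Bool) m) t := by
    funext m
    rcases m with m | m
    · change V.L (ε m) t * 1 = 1 * V.L (ε m) t
      rw [Matrix.mul_one, Matrix.one_mul]
    · exact h0
  rw [h2, kw_mul, ← Matrix.mulVec_mulVec, ha t ht]

/-- **All words.** -/
theorem all {N : ℕ} (hZ : Sys V Z) (hQ : IsPolarisation V Q)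
    (hA : Admissible V Q (transRank V) N)
    (hN : ∀ {n : ℕ} (ε : Fin n → Bool), n ≤ N → ∀ a, V.IsHodge ε a → a ∈ Z ε)
    (hle : ∀ {n : ℕ} (ε : Fin n → Bool), ∀ a ∈ Z ε, V.IsHodge ε a) :
    ∀ (r : ℕ) {κ : Type} [Fintype κ] [DecidableEq κ] (ε : κ → Bool) (a : (κ → ι) → ℚ),
      (Finset.univ.filter fun m => ε m = true).card = r → V.IsTH ε a → a ∈ ZQ Z ε := by
  have hN4 : 4 ≤ N := by
    rcases hA with ⟨-, h⟩ | ⟨-, h⟩ | h <;> rw [h] <;> exact le_max_left _ _
  have hQin : QIn Z Q true := ZQ_of_TH hZ hN (by simp; omega) (Q_hodge hQ)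
  intro r
  induction r with
  | zero =>
    intro κ _ _ ε a hr ha
    have h1 : ε = fun _ => false := by
      funext m
      rw [Finset.card_eq_zero, Finset.filter_eq_empty_iff] at hr
      have := hr (Finset.mem_univ m)
      rcases h : ε m with _ | _
      · rfl
      · exact absurd h this
    subst h1
    exact plain hZ hQ hA hN hle ha
  | succ r ih =>
    intro κ _ _ ε a hr ha
    have h1 : (Finset.univ.filter fun m => ε m = true).Nonempty := by
      rw [← Finset.card_pos]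
      omega
    obtain ⟨m, hm⟩ := h1
    rw [Finset.mem_filter] at hm
    let κ' := {k : κ // k ≠ m}
    let e : κ' ⊕ Unit ≃ κ :=
      { toFun := Sum.elim Subtype.val fun _ => m
        invFun := fun k => if h : k = m then Sum.inr () else Sum.inl ⟨k, h⟩
        left_inv := by
          rintro (⟨k, hk⟩ | k)
          · simp [hk]
          · simp
        right_inv := by
          intro k
          by_cases h : k = m <;> simp [h] }
    obtain ⟨ε', hε'⟩ : ∃ ε' : κ' → Bool, ε' = fun k => ε k.1 := ⟨_, rfl⟩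
    have h2 : V.IsTH (Sum.elim ε' fun _ => true) (rei e.symm a) := by
      refine TH_rei e.symm (fun x => ?_) ha
      obtain ⟨y, rfl⟩ := e.surjective x
      rw [e.symm_apply_apply]
      rcases y with y | y
      · rw [hε']
        rfl
      · exact hm.2.symm
    have h3 := TH_act1 hQ h2
    have h4 : (Finset.univ.filter fun x : κ' ⊕ Unit =>
        (Sum.elim ε' (fun _ => false) : _ → Bool) x = true).card = r := by
      have h5 : (Finset.univ.filter fun x => ε x = true) =
          insert m ((Finset.univ.filter fun x : κ' ⊕ Unit =>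
            (Sum.elim ε' (fun _ => false) : _ → Bool) x = true).map e.toEmbedding) := by
        ext x
        rw [Finset.mem_filter, Finset.mem_insert, Finset.mem_map]
        constructor
        · rintro ⟨-, hx⟩
          by_cases hxm : x = m
          · exact Or.inl hxm
          · refine Or.inr ⟨Sum.inl ⟨x, hxm⟩, ?_, rfl⟩
            rw [Finset.mem_filter]
            refine ⟨Finset.mem_univ _, ?_⟩
            rw [Sum.elim_inl, hε']
            exact hx
        · rintro (rfl | ⟨y, hy, rfl⟩)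
          · exact ⟨Finset.mem_univ _, hm.2⟩
          · rw [Finset.mem_filter] at hy
            rcases y with y | y
            · refine ⟨Finset.mem_univ _, ?_⟩
              have := hy.2
              rw [Sum.elim_inl, hε'] at this
              exact this
            · exact absurd hy.2 (by simp)
      rw [h5, Finset.card_insert_of_notMem, Finset.card_map] at hr
      · omega
      · rw [Finset.mem_map]
        rintro ⟨y, hy, hym⟩
        rw [Finset.mem_filter] at hy
        rcases y with y | y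
        · exact y.2 hym
        · exact absurd hy.2 (by simp)
    have h5 := ih _ _ h4 h3
    have h6 := hZ.actQ hQin h5
    have h7 : act1 Q (act1 Q⁻¹ (rei e.symm a)) = rei e.symm a :=
      act1_act1 (Matrix.mul_nonsing_inv Q (det_ne hQ)) _
    have h8 : rei e.symm a ∈ ZQ Z (Sum.elim ε' fun _ => true) := by
      rw [← h7]
      exact h6
    have h9 := hZ.reiQ e (η := ε) (fun x => by
      rcases x with x | x
      · rw [Sum.elim_inl, hε']
        rfl
      · exact hm.2) h8
    convert h9 using 1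
    funext i
    simp only [rei]
    congr 1
    funext k
    simp

/-- **The core theorem for the words.** -/
theorem core {N : ℕ} (hZ : Sys V Z) (hQ : IsPolarisation V Q)
    (hA : Admissible V Q (transRank V) N)
    (hN : ∀ {n : ℕ} (ε : Fin n → Bool), n ≤ N → ∀ a, V.IsHodge ε a → a ∈ Z ε)
    (hle : ∀ {n : ℕ} (ε : Fin n → Bool), ∀ a ∈ Z ε, V.IsHodge ε a)
    {n : ℕ} (ε : Fin n → Bool) (a : (Fin n → ι) → ℚ) (ha : V.IsHodge ε a) : a ∈ Z ε :=
  hZ.mem_iff.1 (all hZ hQ hA hN hle _ ε a rfl (isHodge_iff.1 ha))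

end Pool.Agent.L0h16.NC
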