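import Mathlib

/-!
# The topological K-theory of a smooth proper category and of the products of copies of it and of its
# opposite: definitions

Let `C` be a smooth and proper `ℂ`-linear category, for instance an admissible subcategory of
`D^perf(X)` for a smooth proper complex variety `X`, and `V = K^top_0(C) ⊗ ℚ ⊕ K^top_1(C) ⊗ ℚ`. We choose
bases of the two summands; the basis of `V` is indexed by the finite set `ι`, so `V = ℚ ^ ι`. The
complexification is the sum of the Hochschild homology groups `HH_k(C)`, for even `k` of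
`K^top_0(C) ⊗ ℂ` and for odd `k` of `K^top_1(C) ⊗ ℂ`.

The categories `C^(ε 0) ⊠ ... ⊠ C^(ε (n - 1))`, where `C^(ε m)` is `C` if `ε m = false` and the opposite
category `C^op` if `ε m = true`, have the topological K-theory `V^(ε 0) ⊗ ... ⊗ V^(ε (n - 1))`, where
`V^op` is the dual of `V`, by the pairing `C^op ⊠ C → D(ℂ)`, `(F, E) ↦ RHom(F, E)`. We use the dual basis
of `V^op`. So an element of it is an array `a` of rational numbers `a (i 0, ..., i (n - 1))`.
-/

set_option autoImplicit false

namespace Pool.Agent.L0h16.NC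

open Matrix

/-- The topological K-theory `V = ℚ ^ ι` of a smooth and proper category `C`: its even and odd parts
and the Hodge decomposition. -/
structure KTop (ι : Type) [Fintype ι] [DecidableEq ι] where
  /-- the basis vector with the index `i` belongs to `K^top_1(C)`; otherwise it belongs to
  `K^top_0(C)` -/
  odd : ι → Bool
  /-- `HH_k(C)` is zero for `|k| > w`, for instance `w = dim X` for `C = D(X)` -/
  w : ℕ
  one_le : 1 ≤ w
  /-- the projector of `V ⊗ ℂ` to `HH_k(C)` -/
  π : ℤ → Matrix ι ι ℂ
  bound : ∀ k : ℤ, (w : ℤ) < |k| → π k = 0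
  total : ∑ k ∈ Finset.Icc (-w : ℤ) w, π k = 1
  mul : ∀ k l, π k * π l = if k = l then π k else 0
  /-- the complex conjugation maps `HH_k(C)` to `HH_(-k)(C)` -/
  conj : ∀ k, (π k).map (starRingEnd ℂ) = π (-k)
  /-- `HH_k(C)` is in `K^top_1(C) ⊗ ℂ` for odd `k` and in `K^top_0(C) ⊗ ℂ` for even `k` -/
  parity : ∀ k i j, π k i j ≠ 0 → (odd i = true ↔ Odd k)

/-- The matrix with rational entries as a complex matrix. -/
def cq {m n : Type} (M : Matrix m n ℚ) : Matrix m n ℂ := M.map (fun x : ℚ => (x : ℂ))

variable {ι : Type} [Fintype ι] [DecidableEq ι]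

/-- The rational bilinear form `Q` is a polarisation of the Hodge structure `V`: `HH_k(C)` and
`HH_l(C)` are orthogonal unless `l = -k`, and `i ^ k Q(x̄, x)` is a positive real number for `x ≠ 0` in
`HH_k(C)`. (A polarisation exists for every admissible subcategory of `D^perf(X)`, since its Hodge
structure is a direct summand of the sum of the Hodge structures of `X`. Nothing is assumed about the
relation of `Q` to the objects of the categories.) -/
structure IsPolarisation (V : KTop ι) (Q : Matrix ι ι ℚ) : Prop where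
  orth : ∀ k l, l ≠ -k → (V.π k)ᵀ * cq Q * V.π l = 0
  pos : ∀ (k : ℤ) (x : ι → ℂ), V.π k *ᵥ x = x → x ≠ 0 →
    ∃ r : ℝ, 0 < r ∧ Complex.I ^ k * (star x ⬝ᵥ (cq Q *ᵥ x)) = r

/-- The projector to `HH_k(C)` for `b = false` and to `HH_k(C^op)`, the dual of `HH_(-k)(C)`, for
`b = true`. -/
def KTop.proj (V : KTop ι) (b : Bool) (k : ℤ) : Matrix ι ι ℂ := if b then (V.π (-k))ᵀ else V.π k

/-- The array `a` is a Hodge class of the product of the categories `C^(ε m)`: its complexification is
in `HH_0`, the sum of the products of the groups `HH_(k m)(C^(ε m))` with `∑ k m = 0`. -/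
def KTop.IsHodge (V : KTop ι) {κ : Type} [Fintype κ] [DecidableEq κ] (ε : κ → Bool)
    (a : (κ → ι) → ℚ) : Prop :=
  ∀ k : κ → ℤ, ∑ m, k m ≠ 0 → ∀ i : κ → ι,
    ∑ j : κ → ι, (∏ m, V.proj (ε m) (k m) (i m) (j m)) * (a j : ℂ) = 0

/-- The class of the product `E ⊠ F` of objects with the classes `a` and `b`. -/
def box {n m : ℕ} (a : (Fin n → ι) → ℚ) (b : (Fin m → ι) → ℚ) : (Fin (n + m) → ι) → ℚ :=
  fun i => a (fun j => i (Fin.castAdd m j)) * b (fun j => i (Fin.natAdd n j))

/-- The image of the class `a` under the interchange of the factors with the numbers `j` and `j + 1`.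
There is a sign for the product of two classes in `K^top_1`. -/
def KTop.swapAt (V : KTop ι) {n : ℕ} (j : Fin n) (a : (Fin (n + 1) → ι) → ℚ) :
    (Fin (n + 1) → ι) → ℚ :=
  fun i => (if V.odd (i j.castSucc) && V.odd (i j.succ) then -1 else 1) *
    a (i ∘ Equiv.swap j.castSucc j.succ)

/-- The word `w x y`. -/
def snoc2 {α : Type} {n : ℕ} (w : Fin n → α) (x y : α) : Fin (n + 2) → α :=
  Fin.snoc (α := fun _ => α) (Fin.snoc (α := fun _ => α) w x) y

/-- The image of the class `a` under the functor `(F, E) ↦ RHom(F, E)` for the last two factors `C^op`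
and `C`. -/
def ev {n : ℕ} (a : (Fin (n + 2) → ι) → ℚ) : (Fin n → ι) → ℚ := fun i => ∑ x, a (snoc2 i x x)

/-- The classes which are generated by the Hodge classes of the products of at most `N` factors: the
smallest system which contains these and is stable under linear combinations, products, interchange of
factors, and the functors `RHom(F, E)` for two factors `C^op` and `C`. -/
inductive Generated (V : KTop ι) (N : ℕ) :
    ∀ {n : ℕ}, (Fin n → Bool) → ((Fin n → ι) → ℚ) → Prop
  | hodge {n : ℕ} {ε : Fin n → Bool} {a : (Fin n → ι) → ℚ} : n ≤ N → V.IsHodge ε a →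
      Generated V N ε a
  | add {n : ℕ} {ε : Fin n → Bool} {a b : (Fin n → ι) → ℚ} : Generated V N ε a →
      Generated V N ε b → Generated V N ε (a + b)
  | smul {n : ℕ} {ε : Fin n → Bool} {a : (Fin n → ι) → ℚ} (c : ℚ) : Generated V N ε a →
      Generated V N ε (c • a)
  | box {n m : ℕ} {ε : Fin n → Bool} {η : Fin m → Bool} {a : (Fin n → ι) → ℚ}
      {b : (Fin m → ι) → ℚ} : Generated V N ε a → Generated V N η b →
      Generated V N (Fin.append ε η) (box a b)
  | swap {n : ℕ} {ε : Fin (n + 1) → Bool} {a : (Fin (n + 1) → ι) → ℚ} (j : Fin n) :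
      Generated V N ε a → Generated V N (ε ∘ Equiv.swap j.castSucc j.succ) (V.swapAt j a)
  | ev {n : ℕ} {ε : Fin n → Bool} {a : (Fin (n + 2) → ι) → ℚ} :
      Generated V N (snoc2 ε true false) a → Generated V N ε (ev a)

/-- `Z ε` is the span of the classes of the objects of the product of the categories `C^(ε m)`. Only the
following is used: products of objects are objects, and the interchange of factors and `RHom(F, E)` for
the last two factors are functors. -/
structure IsObjectClasses (V : KTop ι)
    (Z : ∀ {n : ℕ}, (Fin n → Bool) → Submodule ℚ ((Fin n → ι) → ℚ)) : Prop where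
  box : ∀ {n m : ℕ} (ε : Fin n → Bool) (η : Fin m → Bool) (a : (Fin n → ι) → ℚ)
    (b : (Fin m → ι) → ℚ), a ∈ Z ε → b ∈ Z η → box a b ∈ Z (Fin.append ε η)
  swap : ∀ {n : ℕ} (ε : Fin (n + 1) → Bool) (a : (Fin (n + 1) → ι) → ℚ) (j : Fin n), a ∈ Z ε →
    V.swapAt j a ∈ Z (ε ∘ Equiv.swap j.castSucc j.succ)
  ev : ∀ {n : ℕ} (ε : Fin n → Bool) (a : (Fin (n + 2) → ι) → ℚ), a ∈ Z (snoc2 ε true false) →
    ev a ∈ Z ε

/-- The noncommutative Hodge conjecture for the product of the categories `C^(ε m)`: all Hodge classes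
are in the span `Z` of the classes of objects. -/
def HodgeConjecture (V : KTop ι) {n : ℕ} (ε : Fin n → Bool)
    (Z : Submodule ℚ ((Fin n → ι) → ℚ)) : Prop :=
  ∀ a, V.IsHodge ε a → a ∈ Z

/-- The space of the Hodge classes of `C`. -/
def hodgeSpace (V : KTop ι) : Submodule ℚ (ι → ℚ) where
  carrier := {a | ∀ k : ℤ, k ≠ 0 → V.π k *ᵥ (fun i => (a i : ℂ)) = 0}
  add_mem' {a b} ha hb k hk := by
    have h : (fun i => (((a + b) i : ℚ) : ℂ)) = (fun i => (a i : ℂ)) + fun i => (b i : ℂ) := by
      ext i; simp
    rw [h, Matrix.mulVec_add, ha k hk, hb k hk, add_zero]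
  zero_mem' k _ := by
    have h : (fun i => (((0 : ι → ℚ) i : ℚ) : ℂ)) = 0 := by ext i; simp
    rw [h, Matrix.mulVec_zero]
  smul_mem' c a ha k hk := by
    have h : (fun i => (((c • a) i : ℚ) : ℂ)) = (c : ℂ) • fun i => (a i : ℂ) := by ext i; simp
    rw [h, Matrix.mulVec_smul, ha k hk, smul_zero]

/-- The transcendental rank of `C`: the rank of `K^top_0(C) ⊕ K^top_1(C)` minus the rank of the group
of the Hodge classes of `C`. -/
noncomputable def transRank (V : KTop ι) : ℕ := Module.finrank ℚ ((ι → ℚ) ⧸ hodgeSpace V)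

/-- `f` is an endomorphism of the Hodge structure `V`. -/
def IsEndo (V : KTop ι) (f : Matrix ι ι ℚ) : Prop := ∀ k, V.π k * cq f = cq f * V.π k

/-- `f` belongs to the centre of the algebra of the endomorphisms of the Hodge structure `V`. -/
def IsCentral (V : KTop ι) (f : Matrix ι ι ℚ) : Prop :=
  IsEndo V f ∧ ∀ g, IsEndo V g → f * g = g * f

/-- The centre of the algebra of the endomorphisms of the Hodge structure `V` consists of self-adjoint
endomorphisms for the polarisation `Q`: it is a product of totally real fields. -/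
def TotallyRealCentre (V : KTop ι) (Q : Matrix ι ι ℚ) : Prop :=
  ∀ f, IsCentral V f → fᵀ * Q = Q * f

/-- The sum of all `k Tr(f | HH_k(C))` is zero for all elements `f` of the centre of the algebra of the
endomorphisms of the Hodge structure `V`. (It means that the Hodge group of `V` is semisimple.) -/
def TraceFreeCentre (V : KTop ι) : Prop :=
  ∀ f, IsCentral V f → ∑ k ∈ Finset.Icc (-V.w : ℤ) V.w, (k : ℂ) * (cq f * V.π k).trace = 0

/-- The admissible numbers of factors. -/
def Admissible (V : KTop ι) (Q : Matrix ι ι ℚ) (t N : ℕ) : Prop :=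
  (TotallyRealCentre V Q ∧ N = max 4 t) ∨ (TraceFreeCentre V ∧ N = max 4 (t ^ 2 / 4)) ∨
    N = max 4 ((V.w * t) ^ t)

end Pool.Agent.L0h16.NC
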