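import Pool.Agent.L0h16.NC.HD
import Pool.Agent.N996.BP.Core

/-!
# The family of arrays of `ℚ ⊕ V`
-/

set_option autoImplicit false
set_option linter.unusedSectionVars false

namespace Pool.Agent.L0h16.NC

open Matrix Pool.Agent.N996.BP
open Sys (pr2)

variable {ι : Type} [Fintype ι] [DecidableEq ι] {V : KTop ι} {Q : Matrix ι ι ℚ}
variable {κ κ' : Type} [Fintype κ] [DecidableEq κ] [Fintype κ'] [DecidableEq κ']
variable {H : HData (Option ι)}

/-- the word with letters `i k` at the places `f k` -/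
noncomputable def xt (f : κ → κ') (i : κ → ι) : κ' → Option ι :=
  Function.extend f (fun k => some (i k)) fun _ => none

lemma xt_apply {f : κ → κ'} (hf : Function.Injective f) (i : κ → ι) (k : κ) :
    xt f i (f k) = some (i k) := hf.extend_apply _ _ _

lemma xt_none {f : κ → κ'} (i : κ → ι) {m : κ'} (hm : ¬ ∃ k, f k = m) : xt f i m = none :=
  Function.extend_apply' _ _ _ hm

lemma xt_inj {f : κ → κ'} (hf : Function.Injective f) : Function.Injective (xt (ι := ι) f) := by
  intro i j h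
  funext k
  have h1 := congrFun h (f k)
  rw [xt_apply hf, xt_apply hf] at h1
  exact Option.some_injective _ h1

/-- the components of an array of `ℚ ⊕ V` -/
noncomputable def cmp {R : Type*} (f : κ → κ') (a : (κ' → Option ι) → R) : (κ → ι) → R :=
  fun i => a (xt f i)

/-- every word is an extension -/
lemma exists_xt (i : κ' → Option ι) : ∃ i' : {m // i m ≠ none} → ι,
    i = xt (Subtype.val : {m // i m ≠ none} → κ') i' := by
  have h : ∀ m : {m // i m ≠ none}, ∃ x, i m = some x := fun m => Option.ne_none_iff_exists'.1 m.2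
  choose i' hi' using h
  refine ⟨i', ?_⟩
  funext m
  by_cases hm : i m = none
  · rw [hm, xt_none]
    rintro ⟨k, rfl⟩
    exact k.2 hm
  · exact (hi' ⟨m, hm⟩).trans (xt_apply Subtype.val_injective i' ⟨m, hm⟩).symm

/-- the action on the components -/
lemma kp_ext {f : κ → κ'} (hf : Function.Injective f) (M : Matrix ι ι ℂ)
    (a : (κ' → Option ι) → ℂ) (i : κ → ι) :
    (kp κ' (ext 1 M) *ᵥ a) (xt f i) = (kp κ M *ᵥ cmp f a) i := by
  rw [Matrix.mulVec, Matrix.mulVec, dotProduct, dotProduct]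
  symm
  refine Fintype.sum_of_injective (xt f) (xt_inj hf) _ _ ?_ ?_
  · intro j hj
    suffices h : kp κ' (ext 1 M) (xt f i) j = 0 by rw [h, zero_mul]
    rw [kp_apply]
    by_contra hne
    have hne' := Finset.prod_ne_zero_iff.1 hne
    apply hj
    have h1 : ∀ k, ∃ x, j (f k) = some x := by
      intro k
      have h2 := hne' (f k) (Finset.mem_univ _)
      rw [xt_apply hf] at h2
      rcases hjk : j (f k) with _ | x
      · rw [hjk, ext_sn] at h2
        exact absurd rfl h2
      · exact ⟨x, rfl⟩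
    choose j' hj' using h1
    refine ⟨j', ?_⟩
    funext m
    by_cases hm : ∃ k, f k = m
    · obtain ⟨k, rfl⟩ := hm
      rw [xt_apply hf, hj']
    · rw [xt_none _ hm]
      have h2 := hne' m (Finset.mem_univ _)
      rw [xt_none _ hm] at h2
      rcases hjm : j m with _ | x
      · rfl
      · rw [hjm, ext_ns] at h2
        exact absurd rfl h2
  · intro j
    change kp κ M i j * cmp f a j = kp κ' (ext 1 M) (xt f i) (xt f j) * a (xt f j)
    congr 1
    rw [kp_apply, kp_apply]
    refine Fintype.prod_of_injective f hf _ _ ?_ ?_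
    · intro m hm
      rw [xt_none _ hm, xt_none _ hm, ext_nn]
    · intro k
      rw [xt_apply hf, xt_apply hf, ext_ss]

/-- The family. -/
def BN (Z : ∀ {n : ℕ}, (Fin n → Bool) → Submodule ℚ ((Fin n → ι) → ℚ)) (κ' : Type) :
    Submodule ℚ ((κ' → Option ι) → ℚ) where
  carrier := {a | ∀ (κ : Type) [Fintype κ] [DecidableEq κ] (f : κ → κ'), Function.Injective f →
    cmp f a ∈ ZQ Z (fun _ : κ => false)}
  add_mem' ha hb κ _ _ f hf := Submodule.add_mem _ (ha κ f hf) (hb κ f hf)
  zero_mem' _ _ _ _ _ := Submodule.zero_mem _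
  smul_mem' c _ ha κ _ _ f hf := Submodule.smul_mem _ c (ha κ f hf)

variable {Z : ∀ {n : ℕ}, (Fin n → Bool) → Submodule ℚ ((Fin n → ι) → ℚ)}

lemma BN_rei (e : κ ≃ κ') {a : (κ → Option ι) → ℚ} (ha : a ∈ BN Z κ) :
    rei e a ∈ BN Z κ' := by
  intro l _ _ f hf
  have h1 := ha l (e.symm ∘ f) (e.symm.injective.comp hf)
  convert h1 using 1
  funext i
  change a (xt f i ∘ e) = a (xt (e.symm ∘ f) i)
  congr 1
  funext m
  by_cases hm : ∃ k, f k = e m
  · obtain ⟨k, hk⟩ := hm
    have h2 : (e.symm ∘ f) k = m := by rw [Function.comp_apply, hk, e.symm_apply_apply]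
    rw [Function.comp_apply, ← hk, xt_apply hf, ← h2,
      xt_apply (e.symm.injective.comp hf)]
  · rw [Function.comp_apply, xt_none _ hm, xt_none]
    rintro ⟨k, hk⟩
    apply hm
    refine ⟨k, ?_⟩
    rw [← hk]
    simp

lemma BN_tens (hZ : Sys V Z) {a : (κ → Option ι) → ℚ} {b : (κ' → Option ι) → ℚ}
    (ha : a ∈ BN Z κ) (hb : b ∈ BN Z κ') : tens a b ∈ BN Z (κ ⊕ κ') := by
  classical
  intro l _ _ f hf
  -- the two parts of `l`
  let l1 := {k : l // (f k).isLeft = true}
  let l2 := {k : l // ¬ (f k).isLeft = true}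
  let f1 : l1 → κ := fun k => (f k).getLeft k.2
  have hr : ∀ k : l2, (f k).isRight = true := by
    intro k
    have := k.2
    rcases h : f k with x | x <;> simp_all
  let f2 : l2 → κ' := fun k => (f k).getRight (hr k)
  have e1 : ∀ k : l1, f k = Sum.inl (f1 k) := fun k => (Sum.inl_getLeft _ k.2).symm
  have e2 : ∀ k : l2, f k = Sum.inr (f2 k) := fun k => (Sum.inr_getRight _ (hr k)).symm
  have hf1 : Function.Injective f1 := by
    intro x y h
    apply Subtype.ext
    apply hf
    rw [e1, e1, h]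
  have hf2 : Function.Injective f2 := by
    intro x y h
    apply Subtype.ext
    apply hf
    rw [e2, e2, h]
  have h1 := hZ.tensQ (ha l1 f1 hf1) (hb l2 f2 hf2)
  have h2 := hZ.reiQ (Equiv.sumCompl fun k : l => (f k).isLeft = true) (η := fun _ => false) (by
    rintro (x | x) <;> rfl) h1
  convert h2 using 1
  funext i
  change a (xt f i ∘ Sum.inl) * b (xt f i ∘ Sum.inr) = a (xt f1 _) * b (xt f2 _)
  congr 2
  · funext m
    by_cases hm : ∃ k, f1 k = m
    · obtain ⟨k, rfl⟩ := hm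
      rw [xt_apply hf1, Function.comp_apply, ← e1, xt_apply hf]
      rfl
    · rw [xt_none _ hm, Function.comp_apply, xt_none]
      rintro ⟨k, hk⟩
      apply hm
      refine ⟨⟨k, by rw [hk]; rfl⟩, ?_⟩
      apply Sum.inl_injective (β := κ')
      rw [← e1]
      exact hk
  · funext m
    by_cases hm : ∃ k, f2 k = m
    · obtain ⟨k, rfl⟩ := hm
      rw [xt_apply hf2, Function.comp_apply, ← e2, xt_apply hf]
      rfl
    · rw [xt_none _ hm, Function.comp_apply, xt_none]
      rintro ⟨k, hk⟩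
      apply hm
      refine ⟨⟨k, by rw [hk]; simp⟩, ?_⟩
      apply Sum.inr_injective (α := κ)
      rw [← e2]
      exact hk

/-- the form is a class of objects of `C^op ⊠ C^op` -/
def QIn (Z : ∀ {n : ℕ}, (Fin n → Bool) → Submodule ℚ ((Fin n → ι) → ℚ)) (Q : Matrix ι ι ℚ)
    (b : Bool) : Prop :=
  (fun i : Unit ⊕ Unit → ι => Q (i (Sum.inl ())) (i (Sum.inr ()))) ∈ ZQ Z (pr2 b b)

lemma BN_contr (hZ : Sys V Z) (hQ : QIn Z Q true) {a : (κ ⊕ (Unit ⊕ Unit) → Option ι) → ℚ}
    (ha : a ∈ BN Z (κ ⊕ (Unit ⊕ Unit))) :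
    (fun w : κ → Option ι => ∑ x, ∑ y, ext 1 Q x y * a (Sum.elim w (pr2 x y))) ∈ BN Z κ := by
  intro l _ _ f hf
  have hf1 : Function.Injective (Sum.inl ∘ f : l → κ ⊕ (Unit ⊕ Unit)) :=
    Sum.inl_injective.comp hf
  have hf2 : Function.Injective (Sum.map f id : l ⊕ (Unit ⊕ Unit) → κ ⊕ (Unit ⊕ Unit)) :=
    Sum.map_injective.2 ⟨hf, Function.injective_id⟩
  have h1 := ha l _ hf1
  have h2 := ha (l ⊕ (Unit ⊕ Unit)) _ hf2
  have h3 : (fun _ : l ⊕ (Unit ⊕ Unit) => false) = Sum.elim (fun _ => false) (pr2 false false) := by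
    funext x
    rcases x with x | x | x <;> rfl
  rw [h3] at h2
  have h4 := hZ.ctrQ hQ h2
  have h5 := Submodule.add_mem _ h1 h4
  convert h5 using 1
  funext i
  have e1 : xt (Sum.inl ∘ f : l → κ ⊕ (Unit ⊕ Unit)) i = Sum.elim (xt f i) (pr2 none none) := by
    funext m
    rcases m with m | m
    · by_cases hm : ∃ k, f k = m
      · obtain ⟨k, rfl⟩ := hm
        have : xt (Sum.inl ∘ f : l → κ ⊕ (Unit ⊕ Unit)) i ((Sum.inl ∘ f) k) = some (i k) :=
          xt_apply hf1 i k
        rw [Sum.elim_inl, xt_apply hf]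
        exact this
      · rw [Sum.elim_inl, xt_none _ hm, xt_none]
        rintro ⟨k, hk⟩
        exact hm ⟨k, Sum.inl_injective hk⟩
    · rw [xt_none]
      · rcases m with m | m <;> rfl
      · rintro ⟨k, hk⟩
        simp at hk
  have e2 : ∀ x y, xt (Sum.map f id : l ⊕ (Unit ⊕ Unit) → κ ⊕ (Unit ⊕ Unit))
      (Sum.elim i (pr2 x y)) = Sum.elim (xt f i) (pr2 (some x) (some y)) := by
    intro x y
    funext m
    rcases m with m | m
    · by_cases hm : ∃ k, f k = m
      · obtain ⟨k, rfl⟩ := hm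
        have : xt (Sum.map f id : l ⊕ (Unit ⊕ Unit) → κ ⊕ (Unit ⊕ Unit))
            (Sum.elim i (pr2 x y)) (Sum.map f id (Sum.inl k)) = some (i k) :=
          xt_apply hf2 _ (Sum.inl k)
        rw [Sum.elim_inl, xt_apply hf]
        exact this
      · rw [Sum.elim_inl, xt_none _ hm, xt_none]
        rintro ⟨k, hk⟩
        rcases k with k | k
        · exact hm ⟨k, Sum.inl_injective hk⟩
        · simp at hk
    · have : xt (Sum.map f id : l ⊕ (Unit ⊕ Unit) → κ ⊕ (Unit ⊕ Unit))
          (Sum.elim i (pr2 x y)) (Sum.map f id (Sum.inr m)) = some (Sum.elim i (pr2 x y) (Sum.inr m)) :=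
        xt_apply hf2 _ (Sum.inr m)
      rw [Sum.map_inr, id] at this
      rw [this]
      rcases m with m | m <;> rfl
  change ∑ x, ∑ y, ext 1 Q x y * a (Sum.elim (xt f i) (pr2 x y)) =
    a (xt (Sum.inl ∘ f : l → κ ⊕ (Unit ⊕ Unit)) i) + ∑ x, ∑ y, Q x y *
      a (xt (Sum.map f id : l ⊕ (Unit ⊕ Unit) → κ ⊕ (Unit ⊕ Unit)) (Sum.elim i (pr2 x y)))
  rw [e1]
  simp only [e2]
  rw [Fintype.sum_option, Fintype.sum_option]
  simp only [ext_nn, ext_ns, zero_mul, Finset.sum_const_zero, add_zero, one_mul]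
  congr 1
  refine Finset.sum_congr rfl fun x _ => ?_
  rw [Fintype.sum_option]
  simp only [ext_sn, ext_ss, zero_mul, zero_add]

/-- words of two more letters -/
lemma sn_eq {α : Type} {n : ℕ} (w : Fin (n + 1) → α) (x y : α) :
    (Fin.snoc (α := fun _ => α) (Fin.snoc (α := fun _ => α) w x) y : Fin (n + 2 + 1) → α) ∘
      Sys.ec2 (Equiv.refl (Fin (n + 1))) = Sum.elim w (pr2 x y) :=
  Sys.snoc2_ec (Equiv.refl (Fin (n + 1))) w x y

lemma BB_iff (hl : ∀ t : ℂ, H.l t = ext 1 (V.lc t)) {a : (κ' → Option ι) → ℚ} :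
    a ∈ BB H κ' ↔ ∀ (κ : Type) [Fintype κ] [DecidableEq κ] (f : κ → κ'), Function.Injective f →
      V.IsTH (fun _ : κ => false) (cmp f a) := by
  constructor
  · intro h κ _ _ f hf t ht
    have h1 := h t ht
    funext i
    have h2 := congrFun h1 (xt f i)
    rw [hl, kp_ext hf] at h2
    exact h2
  · intro h t ht
    funext i
    obtain ⟨i', hi'⟩ := exists_xt i
    rw [hi', hl, kp_ext Subtype.val_injective]
    exact congrFun (h _ Subtype.val Subtype.val_injective t ht) i'

/-- **The family.** -/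
theorem rfam (hZ : Sys V Z) (hQ : QIn Z Q true)
    (hle : ∀ {n : ℕ} (ε : Fin n → Bool), ∀ a ∈ Z ε, V.IsHodge ε a)
    (hl : ∀ t : ℂ, H.l t = ext 1 (V.lc t)) (hHQ : H.Qr = ext 1 Q) :
    RFam H (fun n => BN Z (Fin (n + 1))) where
  perm n σ a ha := BN_rei σ ha
  tens n m a b ha hb := BN_rei (ce n m) (BN_tens hZ ha hb)
  contr n a ha := by
    have h1 := BN_rei (Sys.ec2 (Equiv.refl (Fin (n + 1)))).symm ha
    have h2 := BN_contr hZ hQ h1
    convert h2 using 1
    funext w
    rw [ctr, hHQ]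
    refine Finset.sum_congr rfl fun x _ => Finset.sum_congr rfl fun y _ => ?_
    congr 1
    change a (sn w x y) = a (Sum.elim w (pr2 x y) ∘ (Sys.ec2 (Equiv.refl (Fin (n + 1)))).symm)
    congr 1
    rw [← sn_eq w x y]
    funext m
    simp only [Function.comp_apply, Equiv.apply_symm_apply]
    rfl
  le n a ha := by
    rw [BB_iff hl]
    intro κ _ _ f hf
    have h1 := ha κ f hf
    let e := Fintype.equivFin κ
    have h2 := hle _ _ (h1 _ e)
    rw [isHodge_iff] at h2
    have h3 := TH_rei e.symm (η := fun _ : κ => false) (fun x => rfl) h2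
    convert h3 using 1
    funext i
    simp only [rei]
    congr 1
    funext m
    simp

/-- Hodge classes with general index types. -/
lemma ZQ_of_TH {N : ℕ} (hZ : Sys V Z)
    (hN : ∀ {n : ℕ} (ε : Fin n → Bool), n ≤ N → ∀ a, V.IsHodge ε a → a ∈ Z ε)
    {ε : κ → Bool} (hκ : Fintype.card κ ≤ N) {a : (κ → ι) → ℚ} (ha : V.IsTH ε a) :
    a ∈ ZQ Z ε := by
  let e := Fintype.equivFin κ
  refine hZ.of e (hN _ hκ _ ?_)
  rw [isHodge_iff]
  exact TH_rei e (fun x => by simp) ha

lemma small {N : ℕ} (hZ : Sys V Z)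
    (hN : ∀ {n : ℕ} (ε : Fin n → Bool), n ≤ N → ∀ a, V.IsHodge ε a → a ∈ Z ε)
    (hl : ∀ t : ℂ, H.l t = ext 1 (V.lc t)) (n : ℕ) (hn : n + 1 ≤ N) :
    BB H (Fin (n + 1)) ≤ BN Z (Fin (n + 1)) := by
  intro a ha κ _ _ f hf
  have h1 := (BB_iff hl).1 ha κ f hf
  refine ZQ_of_TH hZ hN ?_ h1
  have := Fintype.card_le_of_injective f hf
  rw [Fintype.card_fin] at this
  omega

/-- the array of `ℚ ⊕ V` with one component -/
noncomputable def inc (a : (κ → ι) → ℚ) : (κ → Option ι) → ℚ := fun i =>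
  open scoped Classical in if h : ∃ i' : κ → ι, i = fun k => some (i' k) then a h.choose else 0

lemma inc_some (a : (κ → ι) → ℚ) (i : κ → ι) : inc a (fun k => some (i k)) = a i := by
  have h : ∃ i' : κ → ι, (fun k => some (i k)) = fun k => some (i' k) := ⟨i, rfl⟩
  rw [inc, dif_pos h]
  congr 1
  funext k
  exact (Option.some_injective _ (congrFun h.choose_spec k)).symm

lemma inc_none (a : (κ → ι) → ℚ) {i : κ → Option ι} {k : κ} (hk : i k = none) : inc a i = 0 := by
  rw [inc, dif_neg]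
  rintro ⟨i', hi'⟩
  rw [hi'] at hk
  simp at hk

lemma xt_id (i : κ → ι) : xt id i = fun k => some (i k) := by
  funext k
  exact xt_apply Function.injective_id i k

lemma xt_bij {f : κ → κ'} (hf : Function.Bijective f) (i : κ → ι) :
    xt f i = fun k => some (i ((Equiv.ofBijective f hf).symm k)) := by
  funext m
  obtain ⟨k, rfl⟩ := hf.2 m
  rw [xt_apply hf.1]
  congr 2
  exact ((Equiv.ofBijective f hf).symm_apply_apply k).symm

lemma inc_BB (hl : ∀ t : ℂ, H.l t = ext 1 (V.lc t)) {a : (κ' → ι) → ℚ}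
    (ha : V.IsTH (fun _ : κ' => false) a) : inc a ∈ BB H κ' := by
  rw [BB_iff hl]
  intro κ _ _ f hf
  by_cases hs : Function.Surjective f
  · have h1 := TH_rei (Equiv.ofBijective f ⟨hf, hs⟩).symm (η := fun _ : κ => false)
      (fun x => rfl) ha
    convert h1 using 1
    funext i
    rw [cmp, xt_bij ⟨hf, hs⟩, inc_some]
    rfl
  · have h0 : cmp f (inc a) = 0 := by
      funext i
      rw [Function.Surjective] at hs
      push Not at hs
      obtain ⟨m, hm⟩ := hs
      exact inc_none a (k := m) (xt_none i (by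
        rintro ⟨k, hk⟩
        exact hm k hk))
    rw [h0]
    intro t ht
    have h1 : ca (0 : (κ → ι) → ℚ) = 0 := by ext; simp [ca]
    rw [h1, Matrix.mulVec_zero]

/-- **From the family back to the words.** -/
lemma of_family (hl : ∀ t : ℂ, H.l t = ext 1 (V.lc t)) {n : ℕ}
    (h : BB H (Fin (n + 1)) ≤ BN Z (Fin (n + 1))) {a : (Fin (n + 1) → ι) → ℚ}
    (ha : V.IsTH (fun _ : Fin (n + 1) => false) a) : a ∈ ZQ Z (fun _ : Fin (n + 1) => false) := by
  have h1 := h (inc_BB hl ha) (Fin (n + 1)) id Function.injective_id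
  convert h1 using 1
  funext i
  rw [cmp, xt_id, inc_some]

end Pool.Agent.L0h16.NC
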