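import Pool.Agent.L0h16.NC.Sys
import Pool.Agent.N996.BP.RFam

/-!
# Systems of classes with general index types; contractions with the polarisation
-/

set_option autoImplicit false
set_option linter.unusedSectionVars false

namespace Pool.Agent.L0h16.NC

open Matrix Pool.Agent.N996.BP

variable {ι : Type} [Fintype ι] [DecidableEq ι] {V : KTop ι}
variable {Z : ∀ {n : ℕ}, (Fin n → Bool) → Submodule ℚ ((Fin n → ι) → ℚ)}

/-- The classes with a general index type. -/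
def ZQ (Z : ∀ {n : ℕ}, (Fin n → Bool) → Submodule ℚ ((Fin n → ι) → ℚ)) {κ : Type}
    (ε : κ → Bool) : Submodule ℚ ((κ → ι) → ℚ) where
  carrier := {a | ∀ (n : ℕ) (e : κ ≃ Fin n), rei e a ∈ Z (ε ∘ e.symm)}
  add_mem' ha hb n e := Submodule.add_mem _ (ha n e) (hb n e)
  zero_mem' _ _ := Submodule.zero_mem _
  smul_mem' c _ ha n e := Submodule.smul_mem _ c (ha n e)

namespace Sys

variable (hZ : Sys V Z)

include hZ

lemma of {κ : Type} {ε : κ → Bool} {a : (κ → ι) → ℚ} {n : ℕ} (e : κ ≃ Fin n)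
    (h : rei e a ∈ Z (ε ∘ e.symm)) : a ∈ ZQ Z ε := by
  intro m e'
  obtain rfl : n = m := by
    have := Fintype.card_congr (e.symm.trans e')
    rw [Fintype.card_fin, Fintype.card_fin] at this
    omega
  have h1 := hZ.perm (e.symm.trans e') _ h
  refine mem_of_eq h1 ?_ ?_
  · funext x
    simp
  · funext i
    simp only [rei]
    congr 1
    funext x
    simp

lemma mem_iff {n : ℕ} {ε : Fin n → Bool} {a : (Fin n → ι) → ℚ} : a ∈ ZQ Z ε ↔ a ∈ Z ε :=
  ⟨fun h => h n (Equiv.refl _), fun h => hZ.of (Equiv.refl _) h⟩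

lemma reiQ {κ l : Type} (e : κ ≃ l) {ε : κ → Bool} {η : l → Bool} (h : ∀ x, η (e x) = ε x)
    {a : (κ → ι) → ℚ} (ha : a ∈ ZQ Z ε) : rei e a ∈ ZQ Z η := by
  intro n e'
  refine mem_of_eq (ha n (e.trans e')) ?_ rfl
  funext x
  simp only [Function.comp_apply, Equiv.symm_trans_apply]
  rw [← h, e.apply_symm_apply]

lemma tensQ {κ l : Type} [Fintype κ] [Fintype l] {ε : κ → Bool} {η : l → Bool}
    {a : (κ → ι) → ℚ} {b : (l → ι) → ℚ} (ha : a ∈ ZQ Z ε) (hb : b ∈ ZQ Z η) :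
    tens a b ∈ ZQ Z (Sum.elim ε η) := by
  let e := Fintype.equivFin κ
  let f := Fintype.equivFin l
  refine hZ.of ((Equiv.sumCongr e f).trans finSumFinEquiv) ?_
  have h1 := hZ.box _ _ _ _ (ha _ e) (hb _ f)
  refine mem_of_eq h1 ?_ ?_
  · funext x
    refine Fin.addCases (fun y => ?_) (fun y => ?_) x
    · rw [Fin.append_left]
      simp
    · rw [Fin.append_right]
      simp
  · rfl

/-- the index type with two more elements -/
def ec2 {κ : Type} {n : ℕ} (e : κ ≃ Fin n) : κ ⊕ (Unit ⊕ Unit) ≃ Fin (n + 2) where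
  toFun := Sum.elim (fun k => (e k).castSucc.castSucc)
    (Sum.elim (fun _ => (Fin.last n).castSucc) fun _ => Fin.last (n + 1))
  invFun := Fin.lastCases (Sum.inr (Sum.inr ()))
    (Fin.lastCases (Sum.inr (Sum.inl ())) fun k => Sum.inl (e.symm k))
  left_inv := by
    rintro (k | k | k)
    · simp
    · simp
    · simp
  right_inv := by
    intro k
    refine Fin.lastCases ?_ (fun k => ?_) k
    · simp
    · refine Fin.lastCases ?_ (fun k => ?_) k
      · simp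
      · simp

omit hZ [Fintype ι] [DecidableEq ι] in
lemma snoc2_ec {α : Type} {κ : Type} {n : ℕ} (e : κ ≃ Fin n) (w : Fin n → α) (x y : α) :
    snoc2 w x y ∘ ec2 e = Sum.elim (w ∘ e) (Sum.elim (fun _ => x) fun _ => y) := by
  funext k
  rcases k with k | k | k
  · change snoc2 w x y (e k).castSucc.castSucc = w (e k)
    rw [snoc2, Fin.snoc_castSucc, Fin.snoc_castSucc]
  · change snoc2 w x y (Fin.last n).castSucc = x
    rw [snoc2, Fin.snoc_castSucc, Fin.snoc_last]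
  · change snoc2 w x y (Fin.last (n + 1)) = y
    rw [snoc2, Fin.snoc_last]

/-- the array of pairs -/
abbrev pr2 {α : Type} (x y : α) : Unit ⊕ Unit → α := Sum.elim (fun _ => x) fun _ => y

lemma evQ {κ : Type} [Fintype κ] {ε : κ → Bool} {a : (κ ⊕ (Unit ⊕ Unit) → ι) → ℚ}
    (ha : a ∈ ZQ Z (Sum.elim ε (pr2 true false))) :
    (fun i : κ → ι => ∑ x, a (Sum.elim i (pr2 x x))) ∈ ZQ Z ε := by
  intro n e
  have h1 := ha (n + 2) (ec2 e)
  have h2 : (Sum.elim ε (pr2 true false) : κ ⊕ (Unit ⊕ Unit) → Bool) ∘ (ec2 e).symm =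
      snoc2 (ε ∘ e.symm) true false := by
    have h3 := snoc2_ec e (ε ∘ e.symm) true false
    funext x
    have h4 := congrFun h3 ((ec2 e).symm x)
    simp only [Function.comp_apply, Equiv.apply_symm_apply] at h4
    rw [h4]
    simp only [Function.comp_apply]
    congr 1
    funext k
    simp
  rw [h2] at h1
  have h3 := hZ.ev _ _ h1
  refine mem_of_eq h3 rfl ?_
  funext i
  change ∑ x, a (snoc2 i x x ∘ ec2 e) = ∑ x, a (Sum.elim (i ∘ e) (pr2 x x))
  refine Finset.sum_congr rfl fun x _ => ?_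
  rw [snoc2_ec]

/-- contraction of two factors `C` with a class `Q` of `C^op ⊠ C^op` -/
lemma ctrQ {Q : Matrix ι ι ℚ} (hQ : (fun i : Unit ⊕ Unit → ι => Q (i (Sum.inl ()))
      (i (Sum.inr ()))) ∈ ZQ Z (pr2 true true)) {κ : Type} [Fintype κ] {ε : κ → Bool}
    {a : (κ ⊕ (Unit ⊕ Unit) → ι) → ℚ} (ha : a ∈ ZQ Z (Sum.elim ε (pr2 false false))) :
    (fun i : κ → ι => ∑ x, ∑ y, Q x y * a (Sum.elim i (pr2 x y))) ∈ ZQ Z ε := by
  have h1 := hZ.tensQ ha hQ
  -- the factors are `κ, A, B, C, D`; we pair `C` with `A` and `D` with `B`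
  let e : (κ ⊕ (Unit ⊕ Unit)) ⊕ (Unit ⊕ Unit) ≃ (κ ⊕ (Unit ⊕ Unit)) ⊕ (Unit ⊕ Unit) :=
    { toFun := Sum.elim (Sum.elim (fun k => Sum.inl (Sum.inl k))
        (Sum.elim (fun _ => Sum.inl (Sum.inr (Sum.inr ()))) fun _ => Sum.inr (Sum.inr ())))
        (Sum.elim (fun _ => Sum.inl (Sum.inr (Sum.inl ()))) fun _ => Sum.inr (Sum.inl ()))
      invFun := Sum.elim (Sum.elim (fun k => Sum.inl (Sum.inl k))
        (Sum.elim (fun _ => Sum.inr (Sum.inl ())) fun _ => Sum.inl (Sum.inr (Sum.inl ()))))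
        (Sum.elim (fun _ => Sum.inr (Sum.inr ())) fun _ => Sum.inl (Sum.inr (Sum.inr ())))
      left_inv := by rintro ((k | k | k) | (k | k)) <;> rfl
      right_inv := by rintro ((k | k | k) | (k | k)) <;> rfl }
  have h2 := hZ.reiQ e (η := Sum.elim (Sum.elim ε (pr2 true false)) (pr2 true false)) (by
    rintro ((k | k | k) | (k | k)) <;> rfl) h1
  have h3 := hZ.evQ (hZ.evQ h2)
  refine (congrArg (· ∈ ZQ Z ε) ?_).mp h3
  funext i
  refine Finset.sum_congr rfl fun x _ => Finset.sum_congr rfl fun y _ => ?_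
  rw [mul_comm]
  have h4 : ((Sum.elim (Sum.elim i (pr2 x x)) (pr2 y y) : _ → ι) ∘ e) ∘ Sum.inl =
      Sum.elim i (pr2 x y) := by
    funext k
    rcases k with k | k | k <;> rfl
  change a (((Sum.elim (Sum.elim i (pr2 x x)) (pr2 y y) : _ → ι) ∘ e) ∘ Sum.inl) * Q x y = _
  rw [h4]

/-- the map `V → V^op` given by a class `Q` of `C^op ⊠ C^op` -/
lemma actQ {Q : Matrix ι ι ℚ} (hQ : (fun i : Unit ⊕ Unit → ι => Q (i (Sum.inl ()))
      (i (Sum.inr ()))) ∈ ZQ Z (pr2 true true)) {κ : Type} [Fintype κ] {ε : κ → Bool}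
    {a : (κ ⊕ Unit → ι) → ℚ} (ha : a ∈ ZQ Z (Sum.elim ε fun _ => false)) :
    (fun i : κ ⊕ Unit → ι => ∑ x, Q (i (Sum.inr ())) x *
      a (Sum.elim (i ∘ Sum.inl) fun _ => x)) ∈ ZQ Z (Sum.elim ε fun _ => true) := by
  have h1 := hZ.tensQ ha hQ
  let e : (κ ⊕ Unit) ⊕ (Unit ⊕ Unit) ≃ (κ ⊕ Unit) ⊕ (Unit ⊕ Unit) :=
    { toFun := Sum.elim (Sum.elim (fun k => Sum.inl (Sum.inl k)) fun _ => Sum.inr (Sum.inr ()))
        (Sum.elim (fun _ => Sum.inl (Sum.inr ())) fun _ => Sum.inr (Sum.inl ()))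
      invFun := Sum.elim (Sum.elim (fun k => Sum.inl (Sum.inl k)) fun _ => Sum.inr (Sum.inl ()))
        (Sum.elim (fun _ => Sum.inr (Sum.inr ())) fun _ => Sum.inl (Sum.inr ()))
      left_inv := by rintro ((k | k) | (k | k)) <;> rfl
      right_inv := by rintro ((k | k) | (k | k)) <;> rfl }
  have h2 := hZ.reiQ e (η := Sum.elim (Sum.elim ε fun _ => true) (pr2 true false)) (by
    rintro ((k | k) | (k | k)) <;> rfl) h1
  have h3 := hZ.evQ h2
  refine (congrArg (· ∈ ZQ Z _) ?_).mp h3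
  funext i
  refine Finset.sum_congr rfl fun x _ => ?_
  rw [mul_comm]
  have h4 : ((Sum.elim i (pr2 x x) : _ → ι) ∘ e) ∘ Sum.inl =
      Sum.elim (i ∘ Sum.inl) (fun _ => x) := by
    funext k
    rcases k with k | k <;> rfl
  change a (((Sum.elim i (pr2 x x) : _ → ι) ∘ e) ∘ Sum.inl) * Q (i (Sum.inr ())) x = _
  rw [h4]

end Sys

end Pool.Agent.L0h16.NC
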