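import Pool.Agent.L0h16.NC.Clos
import Pool.Agent.N996.BP.PHS2

/-!
# The polarised Hodge structure `ℚ ⊕ V`
-/

set_option autoImplicit false
set_option linter.unusedSectionVars false

namespace Pool.Agent.L0h16.NC

open Matrix Pool.Agent.N996.BP

variable {ι : Type} [Fintype ι] [DecidableEq ι] {V : KTop ι} {Q : Matrix ι ι ℚ}

section ext

variable {R : Type*} [CommRing R]

/-- the block matrix `c ⊕ M` -/
def ext (c : R) (M : Matrix ι ι R) : Matrix (Option ι) (Option ι) R :=
  Matrix.of fun i j => i.elim (j.elim c fun _ => 0) fun i => j.elim 0 fun j => M i j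

@[simp] lemma ext_nn (c : R) (M : Matrix ι ι R) : ext c M none none = c := rfl
@[simp] lemma ext_ns (c : R) (M : Matrix ι ι R) (j : ι) : ext c M none (some j) = 0 := rfl
@[simp] lemma ext_sn (c : R) (M : Matrix ι ι R) (i : ι) : ext c M (some i) none = 0 := rfl
@[simp] lemma ext_ss (c : R) (M : Matrix ι ι R) (i j : ι) :
    ext c M (some i) (some j) = M i j := rfl

lemma ext_mul (c d : R) (M N : Matrix ι ι R) : ext c M * ext d N = ext (c * d) (M * N) := by
  ext i j
  rcases i with _ | i <;> rcases j with _ | j <;>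
    simp [Matrix.mul_apply, Fintype.sum_option]

lemma ext_one : ext (1 : R) (1 : Matrix ι ι R) = 1 := by
  ext i j
  rcases i with _ | i <;> rcases j with _ | j <;> simp [Matrix.one_apply]

lemma ext_transpose (c : R) (M : Matrix ι ι R) : (ext c M)ᵀ = ext c Mᵀ := by
  ext i j
  rcases i with _ | i <;> rcases j with _ | j <;> simp

lemma ext_smul (a c : R) (M : Matrix ι ι R) : a • ext c M = ext (a * c) (a • M) := by
  ext i j
  rcases i with _ | i <;> rcases j with _ | j <;> simp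

lemma ext_add (c d : R) (M N : Matrix ι ι R) : ext c M + ext d N = ext (c + d) (M + N) := by
  ext i j
  rcases i with _ | i <;> rcases j with _ | j <;> simp

lemma ext_zero : ext (0 : R) (0 : Matrix ι ι R) = 0 := by
  ext i j
  rcases i with _ | i <;> rcases j with _ | j <;> simp

lemma ext_sum {α : Type*} (s : Finset α) (c : α → R) (M : α → Matrix ι ι R) :
    ∑ k ∈ s, ext (c k) (M k) = ext (∑ k ∈ s, c k) (∑ k ∈ s, M k) := by
  classical
  induction s using Finset.induction_on with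
  | empty => simp [ext_zero]
  | insert a s ha ih => rw [Finset.sum_insert ha, Finset.sum_insert ha, Finset.sum_insert ha, ih,
      ext_add]

lemma ext_map {S : Type*} [CommRing S] (f : R → S) (h0 : f 0 = 0) (c : R) (M : Matrix ι ι R) :
    (ext c M).map f = ext (f c) (M.map f) := by
  ext i j
  rcases i with _ | i <;> rcases j with _ | j <;> simp [h0]

end ext

lemma cq_eq {m n : Type} (M : Matrix m n ℚ) : cq M = cQ M := rfl

lemma pi_tr (hQ : IsPolarisation V Q) (k : ℤ) : (V.π k)ᵀ * cq Q = cq Q * V.π (-k) := by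
  have h1 : (V.π k)ᵀ * cq Q = (V.π k)ᵀ * cq Q * V.π (-k) := by
    have h2 : (V.π k)ᵀ * cq Q = (V.π k)ᵀ * cq Q *
        ∑ l ∈ Finset.Icc (-V.w : ℤ) V.w, V.π l := by rw [V.total, Matrix.mul_one]
    rw [Finset.mul_sum] at h2
    by_cases hk : -k ∈ Finset.Icc (-V.w : ℤ) V.w
    · rw [Finset.sum_eq_single (-k)] at h2
      · exact h2
      · intro l _ hl
        exact hQ.orth k l hl
      · intro h; exact absurd hk h
    · have h0 : V.π (-k) = 0 := V.bound _ (by
        rw [Finset.mem_Icc, ← abs_le] at hk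
        omega)
      rw [h0, Matrix.mul_zero, h2]
      refine Finset.sum_eq_zero fun l hl => hQ.orth k l ?_
      rintro rfl
      exact hk hl
  have h3 : cq Q * V.π (-k) = (V.π k)ᵀ * cq Q * V.π (-k) := by
    have h2 : cq Q * V.π (-k) = (∑ l ∈ Finset.Icc (-V.w : ℤ) V.w, V.π l)ᵀ * cq Q *
        V.π (-k) := by rw [V.total, Matrix.transpose_one, Matrix.one_mul]
    rw [Matrix.transpose_sum, Finset.sum_mul, Finset.sum_mul] at h2
    by_cases hk : k ∈ Finset.Icc (-V.w : ℤ) V.w
    · rw [Finset.sum_eq_single k] at h2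
      · exact h2
      · intro l _ hl
        exact hQ.orth l (-k) (by omega)
      · intro h; exact absurd hk h
    · have h0 : V.π k = 0 := V.bound _ (by
        rw [Finset.mem_Icc, ← abs_le] at hk
        omega)
      rw [h0, Matrix.transpose_zero, Matrix.zero_mul, Matrix.zero_mul, h2]
      refine Finset.sum_eq_zero fun l hl => hQ.orth l (-k) ?_
      intro h
      have : l = k := by omega
      exact hk (this ▸ hl)
  rw [h1, h3]

lemma lc_tr (hQ : IsPolarisation V Q) (t : ℂ) :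
    (V.lc t)ᵀ * cq Q = cq Q * V.lc t⁻¹ := by
  rw [l_def, l_def, Matrix.transpose_sum, Finset.sum_mul, Finset.mul_sum,
    ← sum_neg V.w fun k => cq Q * t⁻¹ ^ k • V.π k]
  refine Finset.sum_congr rfl fun k hk => ?_
  rw [Matrix.transpose_smul, Matrix.smul_mul, pi_tr hQ, Matrix.mul_smul, _root_.inv_zpow',
    neg_neg]

/-- **Positivity.** -/
lemma exists_pos (hQ : IsPolarisation V Q) (x : ι → ℂ) :
    ∃ ρ : ℝ, star x ⬝ᵥ ((cq Q * V.lc Complex.I) *ᵥ x) = ρ ∧ 0 ≤ ρ ∧ (x ≠ 0 → 0 < ρ) := by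
  have h1 : ∀ k : ℤ, ∃ ρ : ℝ, Complex.I ^ k * (star (V.π k *ᵥ x) ⬝ᵥ (cq Q *ᵥ (V.π k *ᵥ x))) = ρ ∧
      0 ≤ ρ ∧ (V.π k *ᵥ x ≠ 0 → 0 < ρ) := by
    intro k
    by_cases h0 : V.π k *ᵥ x = 0
    · refine ⟨0, ?_, le_rfl, fun h1 => absurd h0 h1⟩
      rw [h0]
      simp
    · obtain ⟨ρ, hρ, hr⟩ := hQ.pos k (V.π k *ᵥ x) (by
        rw [Matrix.mulVec_mulVec, V.mul, if_pos rfl]) h0
      exact ⟨ρ, hr, hρ.le, fun _ => hρ⟩
  choose ρ hρ hρ0 hρ1 using h1
  have hx : x = ∑ k ∈ Finset.Icc (-V.w : ℤ) V.w, V.π k *ᵥ x := by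
    rw [← Matrix.sum_mulVec, V.total, Matrix.one_mulVec]
  have hsx : star x = ∑ k ∈ Finset.Icc (-V.w : ℤ) V.w, star (V.π k *ᵥ x) := by
    conv_lhs => rw [hx]
    rw [star_sum]
  have hstar : ∀ k, star (V.π k *ᵥ x) = V.π (-k) *ᵥ star x := by
    intro k
    rw [← V.conj k]
    funext i
    simp [Matrix.mulVec, dotProduct, Pi.star_apply, star_sum]
  have h2 : star x ⬝ᵥ ((cq Q * V.lc Complex.I) *ᵥ x) =
      ∑ k ∈ Finset.Icc (-V.w : ℤ) V.w, (ρ k : ℂ) := by
    have h3 : (cq Q * V.lc Complex.I) *ᵥ x = ∑ k ∈ Finset.Icc (-V.w : ℤ) V.w,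
        Complex.I ^ k • (cq Q *ᵥ (V.π k *ᵥ x)) := by
      rw [l_def, Finset.mul_sum, Matrix.sum_mulVec]
      refine Finset.sum_congr rfl fun k _ => ?_
      rw [Matrix.mul_smul, Matrix.smul_mulVec, ← Matrix.mulVec_mulVec]
    rw [h3, dotProduct_sum]
    refine Finset.sum_congr rfl fun k hk => ?_
    rw [dotProduct_smul, smul_eq_mul, ← hρ]
    congr 1
    rw [hsx, sum_dotProduct]
    rw [Finset.sum_eq_single k]
    · intro l _ hl
      rw [hstar, Matrix.dotProduct_mulVec, Matrix.dotProduct_mulVec, Matrix.vecMul_mulVec,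
        Matrix.vecMul_vecMul]
      have h4 : (V.π (-l))ᵀ * cq Q * V.π k = 0 := hQ.orth (-l) k (by
        rw [neg_neg]
        exact Ne.symm hl)
      rw [h4, Matrix.vecMul_zero, zero_dotProduct]
    · intro h; exact absurd hk h
  refine ⟨∑ k ∈ Finset.Icc (-V.w : ℤ) V.w, ρ k, by rw [h2, Complex.ofReal_sum],
    Finset.sum_nonneg fun r _ => hρ0 r, fun hx0 => ?_⟩
  have h3 : ∃ k ∈ Finset.Icc (-V.w : ℤ) V.w, V.π k *ᵥ x ≠ 0 := by
    by_contra hcon
    push Not at hcon
    apply hx0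
    rw [hx]
    exact Finset.sum_eq_zero hcon
  obtain ⟨r, hr, hne⟩ := h3
  exact Finset.sum_pos' (fun r _ => hρ0 r) ⟨r, hr, hρ1 r hne⟩

/-- the Weil operator is real -/
lemma lcI_conj : (V.lc Complex.I).map (starRingEnd ℂ) = V.lc Complex.I := by
  have h1 : (V.lc Complex.I).map (starRingEnd ℂ) =
      ∑ k ∈ Finset.Icc (-V.w : ℤ) V.w, Complex.I ^ (-k) • V.π (-k) := by
    rw [l_def]
    ext i j
    rw [Matrix.map_apply, Matrix.sum_apply, map_sum, Matrix.sum_apply]
    refine Finset.sum_congr rfl fun k _ => ?_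
    rw [Matrix.smul_apply, Matrix.smul_apply, ← V.conj k, smul_eq_mul, map_mul, map_zpow₀,
      Complex.conj_I, Matrix.map_apply, smul_eq_mul, ← Complex.inv_I, _root_.inv_zpow']
  rw [h1, sum_neg V.w fun k => Complex.I ^ k • V.π k]
  rfl

/-- the real Weil operator -/
noncomputable def Cr (V : KTop ι) : Matrix ι ι ℝ := (V.lc Complex.I).map Complex.re

lemma cR_Cr : cR (Cr V) = V.lc Complex.I := by
  ext i j
  rw [cR, Matrix.map_apply, Cr, Matrix.map_apply]
  have h1 := congrFun (congrFun (lcI_conj (V := V)) i) j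
  rw [Matrix.map_apply] at h1
  exact (Complex.conj_eq_iff_re.1 h1)

lemma Cr_inv : ∃ Ci : Matrix ι ι ℝ, Cr V * Ci = 1 := by
  have h1 : cR (Cr V * (Cr V * (Cr V * Cr V))) = 1 := by
    rw [cR_mul, cR_mul, cR_mul, cR_Cr, l_mul, l_mul, l_mul]
    have : Complex.I * (Complex.I * (Complex.I * Complex.I)) = 1 := by
      rw [Complex.I_mul_I]
      linear_combination (-1 : ℂ) * Complex.I_mul_I
    rw [this, l_one]
  refine ⟨Cr V * (Cr V * Cr V), IsPHS.cR_inj ?_⟩
  rw [h1, cR_one]

/-- the rational form as a real matrix -/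
def rq (Q : Matrix ι ι ℚ) : Matrix ι ι ℝ := Q.map fun x : ℚ => (x : ℝ)

lemma cR_rq : cR (rq Q) = cq Q := IsPHS.cR_cQ Q

lemma dot_real (hQ : IsPolarisation V Q) (u v : ι → ℝ) :
    u ⬝ᵥ ((rq Q * Cr V) *ᵥ v) = v ⬝ᵥ ((rq Q * Cr V) *ᵥ u) := by
  obtain ⟨S, hS⟩ : ∃ S, S = rq Q * Cr V := ⟨_, rfl⟩
  have hSc : cR S = cq Q * V.lc Complex.I := by rw [hS, cR_mul, cR_rq, cR_Cr]
  rw [← hS]
  obtain ⟨z, hz⟩ : ∃ z : ι → ℂ, z = (fun i => (u i : ℂ)) + Complex.I • fun i => (v i : ℂ) :=
    ⟨_, rfl⟩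
  obtain ⟨ρ, hρ, -, -⟩ := exists_pos hQ z
  rw [← hSc] at hρ
  have hst : star z = (fun i => (u i : ℂ)) - Complex.I • fun i => (v i : ℂ) := by
    rw [hz]
    funext i
    simp [Pi.star_apply, sub_eq_add_neg]
  rw [hst, hz, Matrix.mulVec_add, Matrix.mulVec_smul, sub_dotProduct, dotProduct_add,
    dotProduct_add, smul_dotProduct, smul_dotProduct, dotProduct_smul, dotProduct_smul,
    IsPHS.cR_dot, IsPHS.cR_dot, IsPHS.cR_dot, IsPHS.cR_dot] at hρ
  have h1 := congrArg Complex.im hρ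
  simp at h1
  linarith

lemma pos_real (hQ : IsPolarisation V Q) (u : ι → ℝ) (hu : u ≠ 0) :
    0 < u ⬝ᵥ ((rq Q * Cr V) *ᵥ u) := by
  obtain ⟨S, hS⟩ : ∃ S, S = rq Q * Cr V := ⟨_, rfl⟩
  have hSc : cR S = cq Q * V.lc Complex.I := by rw [hS, cR_mul, cR_rq, cR_Cr]
  rw [← hS]
  obtain ⟨ρ, hρ, -, h0⟩ := exists_pos hQ (fun i => (u i : ℂ))
  have hst : star (fun i => (u i : ℂ)) = fun i => (u i : ℂ) := by
    funext i
    simp [Pi.star_apply]
  rw [← hSc, hst, IsPHS.cR_dot] at hρ
  have h1 : (u ⬝ᵥ (S *ᵥ u)) = ρ := by exact_mod_cast hρ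
  rw [h1]
  refine h0 fun h => hu ?_
  funext i
  have := congrFun h i
  simpa using this

lemma rq_map {m n : Type} (M : Matrix m n ℚ) : cR (M.map fun x : ℚ => (x : ℝ)) = cQ M :=
  IsPHS.cR_cQ M

/-- the form is nondegenerate -/
lemma det_ne (hQ : IsPolarisation V Q) : IsUnit Q.det := by
  obtain ⟨M, Mi, h1, h2⟩ := exists_sqrt (S := rq Q * Cr V) (dot_real hQ) (pos_real hQ)
  have h3 : (rq Q * Cr V).det ≠ 0 := by
    rw [← h2, Matrix.det_mul, Matrix.det_transpose]
    have h4 : M.det * Mi.det = 1 := by rw [← Matrix.det_mul, h1, Matrix.det_one]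
    have h5 : M.det ≠ 0 := left_ne_zero_of_mul_eq_one h4
    exact mul_ne_zero h5 h5
  rw [Matrix.det_mul] at h3
  have h4 := left_ne_zero_of_mul h3
  rw [isUnit_iff_ne_zero]
  intro h0
  apply h4
  have h5 : (rq Q).det = ((Q.det : ℚ) : ℝ) := by
    have := RingHom.map_det (algebraMap ℚ ℝ) Q
    rw [eq_ratCast] at this
    rw [this]
    rfl
  rw [h5, h0, Rat.cast_zero]

/-- **The polarised Hodge structure `ℚ ⊕ V`.** -/
theorem exists_HData (hQ : IsPolarisation V Q) :
    ∃ H : HData (Option ι), H.w = V.w ∧ H.Qr = ext 1 Q ∧ H.Qir = ext 1 Q⁻¹ ∧ H.D.o = none ∧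
      H.π = fun k => ext (if k = 0 then 1 else 0) (V.π k) := by
  obtain ⟨M, Mi, hM, hMS⟩ := exists_sqrt (S := rq Q * Cr V) (dot_real hQ) (pos_real hQ)
  obtain ⟨Ci, hCi⟩ := Cr_inv (V := V)
  have hQi : Q * Q⁻¹ = 1 := Matrix.mul_nonsing_inv Q (det_ne hQ)
  have h0 : ((0 : ℚ) : ℝ) = 0 := Rat.cast_zero
  have hc0 : ((0 : ℚ) : ℂ) = 0 := Rat.cast_zero
  have hr0 : ((0 : ℝ) : ℂ) = 0 := Complex.ofReal_zero
  have hsum : ∀ t : ℂ, lt V.w (fun k => ext (if k = 0 then (1 : ℂ) else 0) (V.π k)) t =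
      ext 1 (V.lc t) := by
    intro t
    rw [lt, Finset.sum_congr rfl fun k _ => ext_smul (t ^ k) (if k = 0 then (1 : ℂ) else 0)
      (V.π k), ext_sum, l_def]
    congr 1
    rw [Finset.sum_eq_single 0]
    · simp
    · intro k _ hk
      rw [if_neg hk, mul_zero]
    · intro h
      exfalso
      apply h
      rw [Finset.mem_Icc]
      omega
  let D : RData (Option ι) :=
    { Q := ext 1 (rq Q)
      Qi := ext 1 (rq Q⁻¹)
      C := ext 1 (Cr V)
      Ci := ext 1 Ci
      M := ext 1 M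
      Mi := ext 1 Mi
      o := none
      hQ := by
        rw [ext_mul, one_mul]
        have h2 : rq Q * rq Q⁻¹ = 1 := by
          apply IsPHS.cR_inj
          rw [cR_mul, cR_rq, cR_rq, cR_one]
          exact (cQ_mul Q Q⁻¹).symm.trans (by rw [hQi, cQ_one])
        rw [h2, ext_one]
      hC := by rw [ext_mul, one_mul, hCi, ext_one]
      hM := by rw [ext_mul, one_mul, hM, ext_one]
      hS := by rw [ext_transpose, ext_mul, ext_mul, hMS]
      hCQ := by
        rw [ext_transpose, ext_mul, ext_mul, one_mul]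
        have h2 : (Cr V)ᵀ * rq Q * Cr V = rq Q := by
          apply IsPHS.cR_inj
          have h3 : cR (Cr V)ᵀ = (V.lc Complex.I)ᵀ := by rw [← cR_Cr]; rfl
          rw [cR_mul, cR_mul, cR_rq, cR_Cr, h3, lc_tr hQ, Matrix.mul_assoc,
            l_inv' Complex.I_ne_zero, Matrix.mul_one]
        rw [h2, one_mul]
      ho := rfl
      hCo := by
        intro i
        rcases i with _ | i <;> simp }
  let H : HData (Option ι) :=
    { D := D
      Qr := ext 1 Q
      Qir := ext 1 Q⁻¹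
      w := V.w
      π := fun k => ext (if k = 0 then 1 else 0) (V.π k)
      hQr := by
        change ext 1 (rq Q) = _
        rw [ext_map _ h0, Rat.cast_one]
        rfl
      hQir := by
        change ext 1 (rq Q⁻¹) = _
        rw [ext_map _ h0, Rat.cast_one]
        rfl
      h1 := by
        have h2 := hsum 1
        rw [lt] at h2
        simp only [_root_.one_zpow, one_smul] at h2
        rw [h2, l_one, ext_one]
      hmul := by
        intro k _ l _
        rw [ext_mul, V.mul]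
        by_cases hkl : k = l
        · subst hkl
          rw [if_pos rfl, if_pos rfl]
          congr 1
          split_ifs <;> simp
        · rw [if_neg hkl, if_neg hkl]
          have h3 : ((if k = 0 then (1 : ℂ) else 0) * (if l = 0 then 1 else 0)) = 0 := by
            by_cases hk : k = 0
            · have hl : l ≠ 0 := fun h => hkl (by rw [hk, h])
              rw [if_neg hl, mul_zero]
            · rw [if_neg hk, zero_mul]
          rw [h3, ext_zero]
      hπQ := by
        intro k _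
        have h3 : cQ (ext 1 Q) = ext 1 (cq Q) := by
          rw [cQ, ext_map _ hc0, Rat.cast_one]
          rfl
        rw [h3, ext_transpose, ext_mul, ext_mul, pi_tr hQ]
        congr 1
        by_cases hk : k = 0
        · subst hk; simp
        · rw [if_neg hk, if_neg (by omega)]
          simp
      hconj := by
        intro k _
        rw [ext_map _ (map_zero _), V.conj k]
        congr 1
        by_cases hk : k = 0
        · subst hk; simp
        · rw [if_neg hk, if_neg (by omega), map_zero]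
      hC := by
        rw [hsum]
        change (ext 1 (Cr V)).map (fun x : ℝ => (x : ℂ)) = _
        rw [ext_map _ hr0, Complex.ofReal_one]
        congr 1
        exact cR_Cr
      ho := by
        intro t _ i
        rw [hsum]
        rcases i with _ | i
        · change (1 : ℂ) = _
          rw [if_pos rfl]
        · change (0 : ℂ) = _
          rw [if_neg (by simp [D])] }
  exact ⟨H, rfl, rfl, rfl, rfl, rfl⟩

end Pool.Agent.L0h16.NC
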