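import Pool.Agent.L0h16.NC.Defs

/-!
# Systems of classes: signs and permutations
-/

set_option autoImplicit false
set_option linter.unusedSectionVars false

namespace Pool.Agent.L0h16.NC

open Matrix

variable {ι : Type} [Fintype ι] [DecidableEq ι] {V : KTop ι}

/-- The systems of classes. -/
structure Sys (V : KTop ι)
    (Z : ∀ {n : ℕ}, (Fin n → Bool) → Submodule ℚ ((Fin n → ι) → ℚ)) : Prop
    extends IsObjectClasses V Z where
  two : ∀ (ε : Fin 2 → Bool) (a : (Fin 2 → ι) → ℚ), V.IsHodge ε a → a ∈ Z ε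

variable {Z : ∀ {n : ℕ}, (Fin n → Bool) → Submodule ℚ ((Fin n → ι) → ℚ)}

/-- the sign of an index -/
def sgn (V : KTop ι) (x : ι) : ℚ := if V.odd x then -1 else 1

lemma sgn_mul_self (x : ι) : sgn V x * sgn V x = 1 := by
  unfold sgn; split_ifs <;> norm_num

/-- the sign of a pair -/
def sg2 (V : KTop ι) (x y : ι) : ℚ := if V.odd x && V.odd y then -1 else 1

lemma sg2_mul_self (x y : ι) : sg2 V x y * sg2 V x y = 1 := by
  unfold sg2; split_ifs <;> norm_num

lemma sg2_same (x : ι) : sg2 V x x = sgn V x := by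
  unfold sg2 sgn; rw [Bool.and_self]

lemma sg2_eq (x y : ι) :
    sg2 V x y = (1 / 2) * (1 + sgn V x + sgn V y - sgn V x * sgn V y) := by
  unfold sg2 sgn
  rcases V.odd x <;> rcases V.odd y <;> norm_num

lemma sg2_comm (x y : ι) : sg2 V x y = sg2 V y x := by
  unfold sg2; rw [Bool.and_comm]

/-- the sign operator for one factor -/
def sgAt (V : KTop ι) {κ : Type} (m : κ) (a : (κ → ι) → ℚ) : (κ → ι) → ℚ :=
  fun i => sgn V (i m) * a i

lemma swapAt_eq {n : ℕ} (j : Fin n) (a : (Fin (n + 1) → ι) → ℚ) (i : Fin (n + 1) → ι) :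
    V.swapAt j a i = sg2 V (i j.castSucc) (i j.succ) *
      a (i ∘ Equiv.swap j.castSucc j.succ) := rfl

/-- the identity as an array -/
def dlt (ι : Type) [DecidableEq ι] : (Fin 2 → ι) → ℚ := fun i => if i 0 = i 1 then 1 else 0

lemma dlt_of {f : Fin 2 → ι} {x y : ι} (h0 : f 0 = x) (h1 : f 1 = y) :
    dlt ι f = if x = y then 1 else 0 := by
  subst h0; subst h1; rfl

lemma sum_fin2 {M : Type} [AddCommMonoid M] (f : (Fin 2 → ι) → M) :
    ∑ j, f j = ∑ x, ∑ y, f ![x, y] := by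
  rw [← Equiv.sum_comp (finTwoArrowEquiv ι).symm, Fintype.sum_prod_type]
  rfl

lemma pi_mul_of_ne {k l : ℤ} (h : k ≠ l) : V.π k * V.π l = 0 := by rw [V.mul, if_neg h]

/-- the identity is a Hodge class -/
lemma dlt_hodge : V.IsHodge ![true, false] (dlt ι) := by
  intro k hk i
  rw [sum_fin2]
  have h1 : ∀ x y : ι, (∏ m : Fin 2, V.proj ((![true, false] : Fin 2 → Bool) m) (k m) (i m)
      ((![x, y] : Fin 2 → ι) m)) * ((dlt ι ![x, y] : ℚ) : ℂ) =
      if x = y then V.π (-k 0) x (i 0) * V.π (k 1) (i 1) y else 0 := by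
    intro x y
    rw [Fin.prod_univ_two]
    by_cases hxy : x = y
    · simp [KTop.proj, dlt, hxy]
    · simp [dlt, hxy]
  simp only [h1]
  have h2 : ∑ x : ι, ∑ y : ι, (if x = y then V.π (-k 0) x (i 0) * V.π (k 1) (i 1) y else 0) =
      (V.π (k 1) * V.π (-k 0)) (i 1) (i 0) := by
    rw [Matrix.mul_apply]
    refine Finset.sum_congr rfl fun x _ => ?_
    rw [Finset.sum_ite_eq, if_pos (Finset.mem_univ _), mul_comm]
  rw [h2, pi_mul_of_ne]
  · rfl
  · intro h
    apply hk
    rw [Fin.sum_univ_two]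
    omega

/-- the values of a word with three last letters -/
lemma snoc3_apply {α : Type} {n : ℕ} (w : Fin n → α) (c0 c1 c2 : α) (y : Fin (n + 3)) :
    (Fin.snoc (α := fun _ => α) (snoc2 w c0 c1) c2 : Fin (n + 3) → α) y =
    if h : (y : ℕ) < n then w ⟨y, h⟩ else if (y : ℕ) = n then c0 else
      if (y : ℕ) = n + 1 then c1 else c2 := by
  obtain ⟨y, hy⟩ := y
  simp only [snoc2, Fin.snoc]
  by_cases h1 : y < n + 1 + 1
  · by_cases h2 : y < n + 1
    · by_cases h3 : y < n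
      · simp [h1, h2, h3]
      · have : y = n := by omega
        subst this
        simp
    · have : y = n + 1 := by omega
      subst this
      simp
  · have : y = n + 2 := by omega
    subst this
    simp

/-- the values of a word with two last letters -/
lemma snoc2_apply {α : Type} {n : ℕ} (w : Fin n → α) (c0 c1 : α) (y : Fin (n + 2)) :
    snoc2 w c0 c1 y = if h : (y : ℕ) < n then w ⟨y, h⟩ else if (y : ℕ) = n then c0 else c1 := by
  obtain ⟨y, hy⟩ := y
  simp only [snoc2, Fin.snoc]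
  by_cases h2 : y < n + 1
  · by_cases h3 : y < n
    · simp [h2, h3]
    · have : y = n := by omega
      subst this
      simp
  · have : y = n + 1 := by omega
    subst this
    simp

lemma mem_of_eq {n : ℕ} {ε η : Fin n → Bool} {a b : (Fin n → ι) → ℚ} (h : a ∈ Z ε)
    (hε : ε = η) (hab : a = b) : b ∈ Z η := by
  subst hε; subst hab; exact h

namespace Sys

variable (hZ : Sys V Z)

include hZ

/-- three factors are reversed -/
lemma rev3 {n : ℕ} (w : Fin n → Bool) (b0 b1 b2 : Bool) {a : (Fin (n + 3) → ι) → ℚ}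
    (ha : a ∈ Z (Fin.snoc (α := fun _ => Bool) (snoc2 w b0 b1) b2)) :
    (fun i : Fin (n + 3) → ι => sg2 V (i ⟨n, by omega⟩) (i ⟨n + 1, by omega⟩) *
      (sg2 V (i ⟨n, by omega⟩) (i ⟨n + 2, by omega⟩) *
      (sg2 V (i ⟨n + 1, by omega⟩) (i ⟨n + 2, by omega⟩) *
        a (i ∘ Equiv.swap ⟨n, by omega⟩ ⟨n + 2, by omega⟩)))) ∈
      Z (Fin.snoc (α := fun _ => Bool) (snoc2 w b2 b1) b0) := by
  have h1 := hZ.swap _ _ (⟨n, by omega⟩ : Fin (n + 2)) ha
  have h2 := hZ.swap _ _ (⟨n + 1, by omega⟩ : Fin (n + 2)) h1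
  have h3 := hZ.swap _ _ (⟨n, by omega⟩ : Fin (n + 2)) h2
  have e0 : (⟨n, by omega⟩ : Fin (n + 2)).castSucc = (⟨n, by omega⟩ : Fin (n + 3)) := rfl
  have e1 : (⟨n, by omega⟩ : Fin (n + 2)).succ = (⟨n + 1, by omega⟩ : Fin (n + 3)) := rfl
  have e2 : (⟨n + 1, by omega⟩ : Fin (n + 2)).castSucc = (⟨n + 1, by omega⟩ : Fin (n + 3)) := rfl
  have e3 : (⟨n + 1, by omega⟩ : Fin (n + 2)).succ = (⟨n + 2, by omega⟩ : Fin (n + 3)) := rfl
  obtain ⟨A, hA⟩ : ∃ A : Fin (n + 3), A = ⟨n, by omega⟩ := ⟨_, rfl⟩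
  obtain ⟨B, hB⟩ : ∃ B : Fin (n + 3), B = ⟨n + 1, by omega⟩ := ⟨_, rfl⟩
  obtain ⟨C, hC⟩ : ∃ C : Fin (n + 3), C = ⟨n + 2, by omega⟩ := ⟨_, rfl⟩
  have hAB : A ≠ B := by rw [hA, hB]; simp
  have hAC : A ≠ C := by rw [hA, hC]; simp
  have hBC : B ≠ C := by rw [hB, hC]; simp
  rw [e0, e1, e2, e3, ← hA, ← hB, ← hC] at h3
  rw [← hA, ← hB, ← hC]
  have hperm : ∀ x : Fin (n + 3), Equiv.swap A B (Equiv.swap B C (Equiv.swap A B x)) =
      Equiv.swap A C x := by
    intro x
    have := Equiv.swap_mul_swap_mul_swap (x := C) (y := B) (z := A) hBC.symm hAC.symm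
    have h5 := congrArg (fun p : Equiv.Perm (Fin (n + 3)) => p x) this
    simp only [Equiv.Perm.mul_apply] at h5
    rw [Equiv.swap_comm B A, Equiv.swap_comm C B] at h5
    exact h5
  refine mem_of_eq h3 ?_ ?_
  · funext x
    change (Fin.snoc (α := fun _ => Bool) (snoc2 w b0 b1) b2 : Fin (n + 3) → Bool)
      (Equiv.swap A B (Equiv.swap B C (Equiv.swap A B x))) = _
    rw [hperm]
    rw [snoc3_apply, snoc3_apply]
    by_cases hxA : x = A
    · subst hxA
      rw [Equiv.swap_apply_left, hA, hC]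
      simp
    · by_cases hxC : x = C
      · subst hxC
        rw [Equiv.swap_apply_right, hA, hC]
        simp
      · rw [Equiv.swap_apply_of_ne_of_ne hxA hxC]
        have h6 : (x : ℕ) ≠ n := fun h => hxA (by rw [hA]; exact Fin.ext h)
        have h7 : (x : ℕ) ≠ n + 2 := fun h => hxC (by rw [hC]; exact Fin.ext h)
        by_cases h8 : (x : ℕ) < n
        · simp [h8]
        · have h9 : (x : ℕ) = n + 1 := by have := x.2; omega
          simp [h9]
  · funext i
    rw [swapAt_eq, swapAt_eq, swapAt_eq]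
    have e4 : (⟨n, by omega⟩ : Fin (n + 2)).castSucc = A := by rw [hA]; rfl
    have e5 : (⟨n, by omega⟩ : Fin (n + 2)).succ = B := by rw [hB]; rfl
    have e6 : (⟨n + 1, by omega⟩ : Fin (n + 2)).castSucc = B := by rw [hB]; rfl
    have e7 : (⟨n + 1, by omega⟩ : Fin (n + 2)).succ = C := by rw [hC]; rfl
    rw [e4, e5, e6, e7]
    simp only [Function.comp_apply, Equiv.swap_apply_left, Equiv.swap_apply_right,
      Equiv.swap_apply_of_ne_of_ne hAC.symm hBC.symm,
      Equiv.swap_apply_of_ne_of_ne hAB hAC]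
    have h10 : ((i ∘ ⇑(Equiv.swap A B)) ∘ ⇑(Equiv.swap B C)) ∘ ⇑(Equiv.swap A B) =
        i ∘ ⇑(Equiv.swap A C) := by
      funext x
      exact congrArg i (hperm x)
    rw [h10]

lemma sign_last_plain {n : ℕ} (w : Fin n → Bool) {a : (Fin (n + 1) → ι) → ℚ}
    (ha : a ∈ Z (Fin.snoc (α := fun _ => Bool) w false)) :
    sgAt V (Fin.last n) a ∈ Z (Fin.snoc (α := fun _ => Bool) w false) := by
  have h1 := hZ.box _ _ _ _ ha (hZ.two _ _ (dlt_hodge (V := V)))
  have h2 : box a (dlt ι) ∈ Z (n := n + 3)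
      (Fin.snoc (α := fun _ => Bool) (snoc2 w false true) false) := by
    refine mem_of_eq h1 ?_ rfl
    funext y
    rw [snoc3_apply]
    obtain ⟨y, hy⟩ := y
    by_cases h3 : y < n + 1
    · have e1 : (⟨y, hy⟩ : Fin (n + 1 + 2)) = Fin.castAdd 2 ⟨y, h3⟩ := rfl
      rw [e1, Fin.append_left]
      by_cases h4 : y < n
      · have e2 : (⟨y, h3⟩ : Fin (n + 1)) = Fin.castSucc ⟨y, h4⟩ := rfl
        rw [e2, Fin.snoc_castSucc]
        simp [h4]
      · have : y = n := by omega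
        subst this
        have e2 : (⟨y, h3⟩ : Fin (y + 1)) = Fin.last y := rfl
        rw [e2, Fin.snoc_last]
        simp
    · have h5 : y = n + 1 ∨ y = n + 2 := by omega
      rcases h5 with rfl | rfl
      · have e1 : (⟨n + 1, hy⟩ : Fin (n + 1 + 2)) = Fin.natAdd (n + 1) 0 := rfl
        rw [e1, Fin.append_right]
        simp
      · have e1 : (⟨n + 2, hy⟩ : Fin (n + 1 + 2)) = Fin.natAdd (n + 1) 1 := rfl
        rw [e1, Fin.append_right, dif_neg (by simp; omega), if_neg (by simp; omega), if_neg (by simp)]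
        rfl
  have h3 := hZ.rev3 w false true false h2
  have h4 := hZ.ev (Fin.snoc (α := fun _ => Bool) w false) _ h3
  refine mem_of_eq h4 rfl ?_
  funext i
  obtain ⟨p, hp⟩ : ∃ p, p = i (Fin.last n) := ⟨_, rfl⟩
  have e0 : ∀ x, (snoc2 i x x : Fin (n + 3) → ι) ⟨n, by omega⟩ = p := by
    intro x
    rw [snoc2_apply, hp]
    simp [Fin.last]
  have e1 : ∀ x, (snoc2 i x x : Fin (n + 3) → ι) ⟨n + 1, by omega⟩ = x := by
    intro x
    rw [snoc2_apply]
    simp
  have e2 : ∀ x, (snoc2 i x x : Fin (n + 3) → ι) ⟨n + 2, by omega⟩ = x := by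
    intro x
    rw [snoc2_apply]
    simp
  change ∑ x, (sg2 V ((snoc2 i x x : Fin (n + 3) → ι) ⟨n, by omega⟩) _ * (sg2 V _ _ *
    (sg2 V _ _ * (a _ * dlt ι _)))) = sgn V (i (Fin.last n)) * a i
  have e3 : ∀ x, dlt ι (fun j : Fin 2 => (((snoc2 i x x : Fin (n + 3) → ι) ∘
      (Equiv.swap (⟨n, by omega⟩ : Fin (n + 3)) ⟨n + 2, by omega⟩)) :
        Fin (n + 1 + 2) → ι) (Fin.natAdd (n + 1) j)) = if x = p then 1 else 0 := by
    intro x
    refine dlt_of ?_ ?_
    · change snoc2 i x x (Equiv.swap (⟨n, by omega⟩ : Fin (n + 3)) ⟨n + 2, by omega⟩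
        ⟨n + 1, by omega⟩) = x
      rw [Equiv.swap_apply_of_ne_of_ne (by simp) (by simp), e1]
    · change snoc2 i x x (Equiv.swap (⟨n, by omega⟩ : Fin (n + 3)) ⟨n + 2, by omega⟩
        ⟨n + 2, by omega⟩) = p
      rw [Equiv.swap_apply_right, e0]
  rw [Finset.sum_eq_single p]
  · rw [e3, if_pos rfl, mul_one, e0, e1, e2, ← hp, ← mul_assoc, sg2_mul_self, one_mul, sg2_same]
    congr 2
    funext j
    obtain ⟨j, hj⟩ := j
    change snoc2 i p p (Equiv.swap (⟨n, by omega⟩ : Fin (n + 3)) ⟨n + 2, by omega⟩ ⟨j, by omega⟩) = _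
    by_cases hjn : j = n
    · subst hjn
      rw [Equiv.swap_apply_left, e2, hp]
      rfl
    · rw [Equiv.swap_apply_of_ne_of_ne (by simpa using hjn) (by
        intro h
        have := congrArg Fin.val h
        simp at this
        omega), snoc2_apply]
      simp [hj]
  · intro x _ hx
    rw [e3, if_neg hx]
    ring
  · intro h
    exact absurd (Finset.mem_univ _) h

lemma sign_last_op {n : ℕ} (w : Fin n → Bool) {a : (Fin (n + 1) → ι) → ℚ}
    (ha : a ∈ Z (Fin.snoc (α := fun _ => Bool) w true)) :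
    sgAt V (Fin.last n) a ∈ Z (Fin.snoc (α := fun _ => Bool) w true) := by
  have h1 := hZ.box _ _ _ _ ha (hZ.two _ _ (dlt_hodge (V := V)))
  obtain ⟨ω, hω⟩ : ∃ ω : Fin (n + 1 + 2) → Bool, ω =
    Fin.append (Fin.snoc (α := fun _ => Bool) w true) ![true, false] := ⟨_, rfl⟩
  obtain ⟨c, hc⟩ : ∃ c : (Fin (n + 1 + 2) → ι) → ℚ, c = box a (dlt ι) := ⟨_, rfl⟩
  rw [← hω, ← hc] at h1
  have h1' : (show (Fin (n + 3) → ι) → ℚ from c) ∈ Z (n := n + 3)
    (show Fin (n + 3) → Bool from ω) := h1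
  have h2 := hZ.swap (n := n + 2) _ _ (⟨n, by omega⟩ : Fin (n + 2)) h1'
  have h3 : V.swapAt (⟨n, by omega⟩ : Fin (n + 2)) (show (Fin (n + 3) → ι) → ℚ from c) ∈
      Z (n := n + 3) (snoc2 (Fin.snoc (α := fun _ => Bool) w true) true false) := by
    refine mem_of_eq h2 ?_ rfl
    funext y
    have hw : ∀ z : Fin (n + 1 + 2), ω z =
        if h : (z : ℕ) < n then w ⟨z, h⟩ else if (z : ℕ) = n then true else
      if (z : ℕ) = n + 1 then true else false := by
      clear h1 h1' h2 hc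
      clear y
      rintro ⟨z, hz⟩
      rw [hω]
      by_cases h3 : z < n + 1
      · have e1 : (⟨z, hz⟩ : Fin (n + 1 + 2)) = Fin.castAdd 2 ⟨z, h3⟩ := rfl
        rw [e1, Fin.append_left]
        by_cases h4 : z < n
        · have e2 : (⟨z, h3⟩ : Fin (n + 1)) = Fin.castSucc ⟨z, h4⟩ := rfl
          rw [e2, Fin.snoc_castSucc]
          simp [h4]
        · have e2 : (⟨z, h3⟩ : Fin (n + 1)) = Fin.last n := Fin.ext (by simp; omega)
          rw [e2, Fin.snoc_last]
          simp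
      · have h5 : z = n + 1 ∨ z = n + 2 := by omega
        rcases h5 with rfl | rfl
        · have e1 : (⟨n + 1, hz⟩ : Fin (n + 1 + 2)) = Fin.natAdd (n + 1) 0 := rfl
          rw [e1, Fin.append_right]
          simp
        · have e1 : (⟨n + 2, hz⟩ : Fin (n + 1 + 2)) = Fin.natAdd (n + 1) 1 := rfl
          rw [e1, Fin.append_right, dif_neg (by simp; omega), if_neg (by simp; omega), if_neg (by simp)]
          rfl
    change ω (Equiv.swap (⟨n, by omega⟩ : Fin (n + 3)) ⟨n + 1, by omega⟩ y) = _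
    rw [hw]
    have hs : snoc2 (Fin.snoc (α := fun _ => Bool) w true) true false y =
        (Fin.snoc (α := fun _ => Bool) (snoc2 w true true) false : Fin (n + 3) → Bool) y := rfl
    rw [hs, snoc3_apply]
    by_cases hA : y = ⟨n, by omega⟩
    · rw [hA, Equiv.swap_apply_left]
      simp
    · by_cases hB : y = ⟨n + 1, by omega⟩
      · rw [hB, Equiv.swap_apply_right]
        simp
      · rw [Equiv.swap_apply_of_ne_of_ne hA hB]
  have h4 := hZ.ev (Fin.snoc (α := fun _ => Bool) w true) _ h3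
  refine mem_of_eq h4 rfl ?_
  funext i
  rw [hc]
  obtain ⟨p, hp⟩ : ∃ p, p = i (Fin.last n) := ⟨_, rfl⟩
  have e0 : ∀ x, (snoc2 i x x : Fin (n + 3) → ι) ⟨n, by omega⟩ = p := by
    intro x
    rw [snoc2_apply, hp]
    simp [Fin.last]
  have e1 : ∀ x, (snoc2 i x x : Fin (n + 3) → ι) ⟨n + 1, by omega⟩ = x := by
    intro x
    rw [snoc2_apply]
    simp
  have e2 : ∀ x, (snoc2 i x x : Fin (n + 3) → ι) ⟨n + 2, by omega⟩ = x := by
    intro x
    rw [snoc2_apply]
    simp
  change ∑ x, (sg2 V ((snoc2 i x x : Fin (n + 3) → ι) ⟨n, by omega⟩)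
    ((snoc2 i x x : Fin (n + 3) → ι) ⟨n + 1, by omega⟩) * (a _ * dlt ι _)) =
    sgn V (i (Fin.last n)) * a i
  have e3 : ∀ x, dlt ι (fun j : Fin 2 => (((snoc2 i x x : Fin (n + 3) → ι) ∘
      (Equiv.swap (⟨n, by omega⟩ : Fin (n + 3)) ⟨n + 1, by omega⟩)) :
        Fin (n + 1 + 2) → ι) (Fin.natAdd (n + 1) j)) = if p = x then 1 else 0 := by
    intro x
    refine dlt_of ?_ ?_
    · change snoc2 i x x (Equiv.swap (⟨n, by omega⟩ : Fin (n + 3)) ⟨n + 1, by omega⟩
        ⟨n + 1, by omega⟩) = p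
      rw [Equiv.swap_apply_right, e0]
    · change snoc2 i x x (Equiv.swap (⟨n, by omega⟩ : Fin (n + 3)) ⟨n + 1, by omega⟩
        ⟨n + 2, by omega⟩) = x
      rw [Equiv.swap_apply_of_ne_of_ne (by simp) (by simp), e2]
  rw [Finset.sum_eq_single p]
  · erw [e3]
    rw [if_pos rfl, mul_one, e0, e1, ← hp, sg2_same]
    congr 2
    funext j
    obtain ⟨j, hj⟩ := j
    change snoc2 i p p (Equiv.swap (⟨n, by omega⟩ : Fin (n + 3)) ⟨n + 1, by omega⟩ ⟨j, by omega⟩) = _
    by_cases hjn : j = n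
    · subst hjn
      rw [Equiv.swap_apply_left, e1, hp]
      rfl
    · rw [Equiv.swap_apply_of_ne_of_ne (by simpa using hjn) (by
        intro h
        have := congrArg Fin.val h
        simp at this
        omega), snoc2_apply]
      simp [hj]
  · intro x _ hx
    erw [e3]
    rw [if_neg (Ne.symm hx)]
    ring
  · intro h
    exact absurd (Finset.mem_univ _) h

/-- the sign operator for the last factor -/
lemma sign_last {n : ℕ} (ε : Fin (n + 1) → Bool) {a : (Fin (n + 1) → ι) → ℚ} (ha : a ∈ Z ε) :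
    sgAt V (Fin.last n) a ∈ Z ε := by
  obtain ⟨w, b, rfl⟩ : ∃ (w : Fin n → Bool) (b : Bool), ε = Fin.snoc (α := fun _ => Bool) w b :=
    ⟨Fin.init ε, ε (Fin.last n), (Fin.snoc_init_self ε).symm⟩
  cases b with
  | false => exact hZ.sign_last_plain w ha
  | true => exact hZ.sign_last_op w ha

/-- the sign operator for one factor -/
lemma sign_at {n : ℕ} (m : Fin (n + 1)) : ∀ (ε : Fin (n + 1) → Bool)
    {a : (Fin (n + 1) → ι) → ℚ}, a ∈ Z ε → sgAt V m a ∈ Z ε := by
  refine Fin.reverseInduction (motive := fun m => ∀ (ε : Fin (n + 1) → Bool)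
    {a : (Fin (n + 1) → ι) → ℚ}, a ∈ Z ε → sgAt V m a ∈ Z ε) ?_ (fun j ih => ?_) m
  · intro ε a ha
    exact hZ.sign_last ε ha
  · intro ε a ha
    have h1 := hZ.swap _ _ j ha
    have h2 := ih _ h1
    have h3 := hZ.swap _ _ j h2
    refine mem_of_eq h3 ?_ ?_
    · funext x
      simp
    · funext i
      rw [swapAt_eq, sgAt, sgAt, swapAt_eq]
      simp only [Function.comp_apply, Equiv.swap_apply_left, Equiv.swap_apply_right]
      have h4 : (i ∘ ⇑(Equiv.swap j.castSucc j.succ)) ∘ ⇑(Equiv.swap j.castSucc j.succ) = i := by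
        funext x
        simp
      rw [h4, sg2_comm (i j.succ) (i j.castSucc)]
      have h5 := sg2_mul_self (V := V) (i j.castSucc) (i j.succ)
      linear_combination (sgn V (i j.castSucc) * a i) * h5

/-- interchange of two factors without sign -/
lemma uswap {n : ℕ} (j : Fin n) (ε : Fin (n + 1) → Bool) {a : (Fin (n + 1) → ι) → ℚ}
    (ha : a ∈ Z ε) : (fun i : Fin (n + 1) → ι => a (i ∘ Equiv.swap j.castSucc j.succ)) ∈
      Z (ε ∘ Equiv.swap j.castSucc j.succ) := by
  have h1 := hZ.sign_at j.castSucc ε ha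
  have h2 := hZ.sign_at j.succ ε ha
  have h3 := hZ.sign_at j.castSucc ε h2
  have h4 : (1 / 2 : ℚ) • (a + sgAt V j.castSucc a + sgAt V j.succ a -
      sgAt V j.castSucc (sgAt V j.succ a)) ∈ Z ε :=
    Submodule.smul_mem _ _ (Submodule.sub_mem _ (Submodule.add_mem _ (Submodule.add_mem _ ha h1)
      h2) h3)
  refine mem_of_eq (hZ.swap _ _ j h4) rfl ?_
  funext i
  rw [swapAt_eq]
  simp only [Pi.smul_apply, Pi.sub_apply, Pi.add_apply, sgAt, smul_eq_mul, Function.comp_apply,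
    Equiv.swap_apply_left, Equiv.swap_apply_right]
  have h5 := sg2_mul_self (V := V) (i j.castSucc) (i j.succ)
  have h6 := sg2_eq (V := V) (i j.castSucc) (i j.succ)
  linear_combination (a (i ∘ ⇑(Equiv.swap j.castSucc j.succ))) * h5 -
    (sg2 V (i j.castSucc) (i j.succ) * a (i ∘ ⇑(Equiv.swap j.castSucc j.succ))) * h6

/-- permutations of the factors without sign -/
lemma perm {n : ℕ} (τ : Equiv.Perm (Fin n)) : ∀ (ε : Fin n → Bool)
    {a : (Fin n → ι) → ℚ}, a ∈ Z ε →
      (fun i : Fin n → ι => a (i ∘ τ)) ∈ Z (ε ∘ τ.symm) := by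
  cases n with
  | zero =>
    intro ε a ha
    refine mem_of_eq ha (Subsingleton.elim _ _) ?_
    funext i
    congr 1
    exact Subsingleton.elim _ _
  | succ n =>
    let S : Submonoid (Equiv.Perm (Fin (n + 1))) :=
      { carrier := {τ | ∀ (ε : Fin (n + 1) → Bool) {a : (Fin (n + 1) → ι) → ℚ}, a ∈ Z ε →
          (fun i : Fin (n + 1) → ι => a (i ∘ τ)) ∈ Z (ε ∘ τ.symm)}
        one_mem' := fun ε a ha => ha
        mul_mem' := by
          intro τ ρ hτ hρ ε a ha
          have h1 := hτ _ (hρ _ ha)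
          exact h1 }
    have h1 : τ ∈ S := by
      have h2 : τ ∈ Submonoid.closure (Set.range fun i : Fin n =>
          Equiv.swap i.castSucc i.succ) := by
        rw [Equiv.Perm.mclosure_swap_castSucc_succ]
        trivial
      refine (Submonoid.closure_le.2 ?_) h2
      rintro _ ⟨j, rfl⟩ ε a ha
      exact hZ.uswap j ε ha
    exact h1

end Sys

end Pool.Agent.L0h16.NC
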