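import Pool.Agent.L0h16.NC.Gen
import Pool.Agent.N996.BP.HData

/-!
# Hodge classes as invariants of a torus
-/

set_option autoImplicit false
set_option linter.unusedSectionVars false

namespace Pool.Agent.L0h16.NC

open Matrix Pool.Agent.N996.BP

variable {ι : Type} [Fintype ι] [DecidableEq ι] {V : KTop ι}
variable {κ κ' : Type} [Fintype κ] [DecidableEq κ] [Fintype κ'] [DecidableEq κ']

/-- The Kronecker product of matrices. -/
def kw {κ : Type} [Fintype κ] (M : κ → Matrix ι ι ℂ) : Matrix (κ → ι) (κ → ι) ℂ :=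
  Matrix.of fun i j => ∏ m, M m (i m) (j m)

lemma kw_apply (M : κ → Matrix ι ι ℂ) (i j : κ → ι) : kw M i j = ∏ m, M m (i m) (j m) := rfl

lemma kw_mul (M N : κ → Matrix ι ι ℂ) : kw (fun m => M m * N m) = kw M * kw N := by
  ext i j
  simp only [kw_apply, Matrix.mul_apply]
  rw [Finset.prod_univ_sum]
  refine Finset.sum_congr (by ext; simp) fun a _ => ?_
  rw [Finset.prod_mul_distrib]

lemma kw_one : kw (fun _ : κ => (1 : Matrix ι ι ℂ)) = 1 := by
  ext i j
  rw [kw_apply]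
  by_cases h : i = j
  · subst h; simp
  · rw [Matrix.one_apply_ne h]
    obtain ⟨k, hk⟩ := Function.ne_iff.1 h
    exact Finset.prod_eq_zero (Finset.mem_univ k) (Matrix.one_apply_ne hk)

lemma kw_sum (s : Finset ℤ) (c : κ → ℤ → ℂ) (N : κ → ℤ → Matrix ι ι ℂ) :
    kw (fun m => ∑ k ∈ s, c m k • N m k) = ∑ k ∈ Fintype.piFinset fun _ : κ => s,
      (∏ m, c m (k m)) • kw (fun m => N m (k m)) := by
  ext i j
  rw [kw_apply, Matrix.sum_apply]
  have h1 : ∀ m, (∑ k ∈ s, c m k • N m k) (i m) (j m) = ∑ k ∈ s, c m k * N m k (i m) (j m) := by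
    intro m
    rw [Matrix.sum_apply]
    rfl
  simp only [h1]
  rw [Finset.prod_univ_sum]
  refine Finset.sum_congr rfl fun k _ => ?_
  rw [Finset.prod_mul_distrib]
  rfl

lemma kw_rei (e : κ ≃ κ') (M : κ' → Matrix ι ι ℂ) (a : (κ → ι) → ℂ) :
    kw M *ᵥ rei e a = rei e (kw (fun k => M (e k)) *ᵥ a) := by
  ext i
  rw [rei, Matrix.mulVec, Matrix.mulVec, dotProduct, dotProduct,
    ← Equiv.sum_comp (e.arrowCongr (Equiv.refl ι))]
  refine Finset.sum_congr rfl fun j _ => ?_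
  have h1 : (e.arrowCongr (Equiv.refl ι)) j = j ∘ e.symm := by
    ext; simp [Equiv.arrowCongr]
  rw [h1, rei]
  have h2 : (j ∘ ⇑e.symm) ∘ ⇑e = j := by ext; simp
  rw [h2, kw_apply, kw_apply, ← Equiv.prod_comp e]
  simp

lemma kw_sumElim (M : κ → Matrix ι ι ℂ) (N : κ' → Matrix ι ι ℂ) (i j : κ → ι) (i' j' : κ' → ι) :
    kw (Sum.elim M N) (Sum.elim i i') (Sum.elim j j') = kw M i j * kw N i' j' := by
  simp [kw_apply, Fintype.prod_sum_type]

lemma kw_tens (M : κ → Matrix ι ι ℂ) (N : κ' → Matrix ι ι ℂ) (a : (κ → ι) → ℂ)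
    (b : (κ' → ι) → ℂ) :
    kw (Sum.elim M N) *ᵥ tens a b = tens (kw M *ᵥ a) (kw N *ᵥ b) := by
  ext i
  obtain ⟨i₁, i₂, rfl⟩ : ∃ i₁ i₂, i = Sum.elim i₁ i₂ := ⟨i ∘ Sum.inl, i ∘ Sum.inr, by simp⟩
  rw [tens_elim, Matrix.mulVec, dotProduct, sum_sumElim]
  simp only [kw_sumElim, tens_elim]
  rw [Matrix.mulVec, Matrix.mulVec, dotProduct, dotProduct, Finset.sum_mul_sum]
  refine Finset.sum_congr rfl fun x _ => Finset.sum_congr rfl fun y _ => ?_
  ring

/-- The cocharacter. -/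
noncomputable def KTop.lc (V : KTop ι) (t : ℂ) : Matrix ι ι ℂ := lt V.w V.π t

/-- The cocharacter for `C` or `C^op`. -/
noncomputable def KTop.L (V : KTop ι) (b : Bool) (t : ℂ) : Matrix ι ι ℂ :=
  if b then (V.lc t⁻¹)ᵀ else V.lc t

lemma l_def (t : ℂ) : V.lc t = ∑ k ∈ Finset.Icc (-V.w : ℤ) V.w, t ^ k • V.π k := rfl

lemma l_one : V.lc 1 = 1 := by
  rw [l_def, ← V.total]
  exact Finset.sum_congr rfl fun k _ => by rw [_root_.one_zpow, one_smul]

lemma l_mul (s t : ℂ) : V.lc s * V.lc t = V.lc (s * t) := by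
  rw [l_def, l_def, l_def, Finset.sum_mul_sum]
  refine Finset.sum_congr rfl fun k hk => ?_
  rw [Finset.sum_eq_single k]
  · rw [Matrix.smul_mul, Matrix.mul_smul, V.mul k k, if_pos rfl, smul_smul, mul_zpow]
  · intro m hm hne
    rw [Matrix.smul_mul, Matrix.mul_smul, V.mul k m, if_neg (Ne.symm hne), smul_zero,
      smul_zero]
  · intro h; exact absurd hk h

lemma l_inv {t : ℂ} (ht : t ≠ 0) : V.lc t * V.lc t⁻¹ = 1 := by
  rw [l_mul, mul_inv_cancel₀ ht, l_one]

lemma l_inv' {t : ℂ} (ht : t ≠ 0) : V.lc t⁻¹ * V.lc t = 1 := by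
  rw [l_mul, inv_mul_cancel₀ ht, l_one]

lemma sum_neg {M : Type*} [AddCommMonoid M] (w : ℕ) (f : ℤ → M) :
    ∑ k ∈ Finset.Icc (-w : ℤ) w, f (-k) = ∑ k ∈ Finset.Icc (-w : ℤ) w, f k := by
  refine Finset.sum_nbij' (fun k => -k) (fun k => -k) ?_ ?_ ?_ ?_ ?_
  · intro a ha; rw [Finset.mem_Icc] at *; omega
  · intro a ha; rw [Finset.mem_Icc] at *; omega
  · intro a _; simp
  · intro a _; simp
  · intro a _; rfl

lemma L_eq (b : Bool) (t : ℂ) :
    V.L b t = ∑ k ∈ Finset.Icc (-V.w : ℤ) V.w, t ^ k • V.proj b k := by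
  cases b with
  | false => rfl
  | true =>
    change (V.lc t⁻¹)ᵀ = ∑ k ∈ Finset.Icc (-V.w : ℤ) V.w, t ^ k • (V.π (-k))ᵀ
    rw [l_def, Matrix.transpose_sum, ← sum_neg]
    refine Finset.sum_congr rfl fun k _ => ?_
    rw [Matrix.transpose_smul, _root_.inv_zpow', neg_neg]

lemma proj_mul (b : Bool) (k m : ℤ) :
    V.proj b k * V.proj b m = if k = m then V.proj b k else 0 := by
  cases b with
  | false => exact V.mul k m
  | true =>
    change (V.π (-k))ᵀ * (V.π (-m))ᵀ = if k = m then (V.π (-k))ᵀ else 0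
    rw [← Matrix.transpose_mul, V.mul]
    by_cases h : k = m
    · subst h; simp
    · rw [if_neg (by omega), if_neg h, Matrix.transpose_zero]

lemma proj_bound (b : Bool) {k : ℤ} (hk : (V.w : ℤ) < |k|) : V.proj b k = 0 := by
  cases b with
  | false => exact V.bound k hk
  | true =>
    change (V.π (-k))ᵀ = 0
    rw [V.bound (-k) (by rwa [abs_neg]), Matrix.transpose_zero]

lemma proj_total (b : Bool) : ∑ k ∈ Finset.Icc (-V.w : ℤ) V.w, V.proj b k = 1 := by
  have h1 := L_eq (V := V) b 1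
  simp only [_root_.one_zpow, one_smul] at h1
  rw [← h1]
  cases b with
  | false => exact l_one
  | true =>
    change (V.lc 1⁻¹)ᵀ = 1
    rw [inv_one, l_one, Matrix.transpose_one]

lemma proj_mul_L (b : Bool) (k : ℤ) (t : ℂ) : V.proj b k * V.L b t = t ^ k • V.proj b k := by
  rw [L_eq, Finset.mul_sum]
  by_cases hk : k ∈ Finset.Icc (-V.w : ℤ) V.w
  · rw [Finset.sum_eq_single k]
    · rw [Matrix.mul_smul, proj_mul, if_pos rfl]
    · intro m _ hm
      rw [Matrix.mul_smul, proj_mul, if_neg (Ne.symm hm), smul_zero]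
    · intro h; exact absurd hk h
  · have h0 : V.proj b k = 0 := by
      refine proj_bound b ?_
      rw [Finset.mem_Icc, ← abs_le] at hk
      omega
    rw [h0, smul_zero]
    exact Finset.sum_eq_zero fun m _ => Matrix.zero_mul _

lemma prod_zpow' {t : ℂ} (ht : t ≠ 0) (s : Finset κ) (k : κ → ℤ) :
    ∏ m ∈ s, t ^ (k m) = t ^ (∑ m ∈ s, k m) := by
  induction s using Finset.induction_on with
  | empty => simp
  | insert m s hm ih => rw [Finset.prod_insert hm, Finset.sum_insert hm, ih, zpow_add₀ ht]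

/-- The invariants of the torus. -/
def KTop.IsTH (V : KTop ι) {κ : Type} [Fintype κ] [DecidableEq κ] (ε : κ → Bool)
    (a : (κ → ι) → ℚ) : Prop :=
  ∀ t : ℂ, t ≠ 0 → kw (fun m => V.L (ε m) t) *ᵥ ca a = ca a

lemma isHodge_iff {ε : κ → Bool} {a : (κ → ι) → ℚ} : V.IsHodge ε a ↔ V.IsTH ε a := by
  constructor
  · intro h t ht
    have h1 : ∀ k : κ → ℤ, ∑ m, k m ≠ 0 →
        kw (fun m => V.proj (ε m) (k m)) *ᵥ ca a = 0 := by
      intro k hk
      funext i
      exact h k hk i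
    have h2 : kw (fun m => V.L (ε m) t) = ∑ k ∈ Fintype.piFinset fun _ : κ =>
        Finset.Icc (-V.w : ℤ) V.w, (∏ m, t ^ (k m)) • kw (fun m => V.proj (ε m) (k m)) := by
      rw [← kw_sum (Finset.Icc (-V.w : ℤ) V.w) (fun _ k => t ^ k) fun m k => V.proj (ε m) k]
      congr 1
      funext m
      exact L_eq _ _
    have h3 : (1 : Matrix (κ → ι) (κ → ι) ℂ) = ∑ k ∈ Fintype.piFinset fun _ : κ =>
        Finset.Icc (-V.w : ℤ) V.w, kw (fun m => V.proj (ε m) (k m)) := by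
      have h4 := kw_sum (Finset.Icc (-V.w : ℤ) V.w) (fun _ _ => 1)
        (fun (m : κ) k => V.proj (ε m) k)
      simp only [one_smul, Finset.prod_const_one, proj_total, kw_one] at h4
      exact h4
    rw [h2, Matrix.sum_mulVec]
    conv_rhs => rw [← Matrix.one_mulVec (ca a), h3, Matrix.sum_mulVec]
    refine Finset.sum_congr rfl fun k _ => ?_
    by_cases hk : ∑ m, k m = 0
    · rw [prod_zpow' ht, hk, _root_.zpow_zero, one_smul]
    · rw [Matrix.smul_mulVec, h1 k hk, smul_zero]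
  · intro h k hk i
    have h1 := h 2 two_ne_zero
    have h2 := congrArg (fun v => kw (fun m => V.proj (ε m) (k m)) *ᵥ v) h1
    beta_reduce at h2
    rw [Matrix.mulVec_mulVec, ← kw_mul] at h2
    have h3 : kw (fun m => V.proj (ε m) (k m) * V.L (ε m) 2) =
        ((2 : ℂ) ^ (∑ m, k m)) • kw (fun m => V.proj (ε m) (k m)) := by
      ext i j
      simp only [proj_mul_L, kw_apply, Matrix.smul_apply, smul_eq_mul, Finset.prod_mul_distrib]
      rw [prod_zpow' two_ne_zero]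
    rw [h3, Matrix.smul_mulVec] at h2
    have h4 : ((2 : ℂ) ^ (∑ m, k m) - 1) • (kw (fun m => V.proj (ε m) (k m)) *ᵥ ca a) = 0 := by
      rw [sub_smul, one_smul, h2, sub_self]
    rcases smul_eq_zero.1 h4 with h5 | h5
    · exfalso
      have h6 : ((2 : ℝ) ^ (∑ m, k m)) = 1 := by
        have h7 : ((2 : ℂ) ^ (∑ m, k m)) = 1 := sub_eq_zero.1 h5
        have h8 : (((2 : ℝ) ^ (∑ m, k m) : ℝ) : ℂ) = 1 := by
          rw [Complex.ofReal_zpow]
          exact h7
        exact_mod_cast h8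
      exact hk ((zpow_eq_one_iff_right₀ (by norm_num) (by norm_num)).1 h6)
    · exact congrFun h5 i

end Pool.Agent.L0h16.NC
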